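import Pool.Agent.X328.GM.Stm

/-!
# Project GN: strong uniform boundedness for GENERIC rational maps of every degree

The maps `nu / de` of degree `d` fix `0`, `1`, `∞`; their `2 d - 2` parameters are the coordinates of
an open part of the moduli space. The center `t = 0` is `X ^ d`. For a generic `t` the multipliers of
the cycles of length `3` determine `t` up to finitely many choices (infinitesimal rigidity of `X ^ d`),
hence have large height, and project GM applies. Statements of the jobs.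
-/

set_option autoImplicit false

namespace Pool.Agent.X328.GN

open Finset Polynomial Pool.Agent.W277.UB Pool.Agent.W277.UH
open Pool.Agent.X328.FP (wr vl hQ)

universe u v w

noncomputable section

/-- the parameters -/
abbrev Ix (d : ℕ) := Fin (d - 1) ⊕ Fin (d - 1)

section

variable {A : Type*} [CommRing A]

/-- the numerator `X ^ d + ∑ t_i X ^ (i + 1)` -/
def nu (d : ℕ) (t : Ix d → A) : A[X] :=
  X ^ d + ∑ i : Fin (d - 1), C (t (Sum.inl i)) * X ^ (i.1 + 1)

/-- the denominator `c + ∑ t'_i X ^ (i + 1)`, where `c = 1 + ∑ t - ∑ t'` (so `1` is a fixed point) -/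
def de (d : ℕ) (t : Ix d → A) : A[X] :=
  C (1 + ∑ i : Fin (d - 1), t (Sum.inl i) - ∑ i : Fin (d - 1), t (Sum.inr i)) +
    ∑ i : Fin (d - 1), C (t (Sum.inr i)) * X ^ (i.1 + 1)

/-- `Q ^ d F (P / Q)` -/
def hm (d : ℕ) (F P Q : A[X]) : A[X] :=
  ∑ i ∈ range (d + 1), C (F.coeff i) * P ^ i * Q ^ (d - i)

/-- numerator and denominator of the iterates of `u / w` -/
def it (d : ℕ) (u w : A[X]) : ℕ → A[X] × A[X]
  | 0 => (X, 1)
  | n + 1 => (hm d u (it d u w n).1 (it d u w n).2, hm d w (it d u w n).1 (it d u w n).2)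

/-- numerator and denominator of the third iterate of `nu / de` -/
def P3 (d : ℕ) (t : Ix d → A) : A[X] := (it d (nu d t) (de d t) 3).1
def Q3 (d : ℕ) (t : Ix d → A) : A[X] := (it d (nu d t) (de d t) 3).2

/-- its fixed points -/
def Ph (d : ℕ) (t : Ix d → A) : A[X] := P3 d t - X * Q3 d t

/-- the Wronskian (as `Pool.Agent.X328.FP.wr`, over a ring) -/
def wrA (p q : A[X]) : A[X] := derivative p * q - p * derivative q

/-- the resultant in `X` of `Ph` and `Y Q3 ^ 2 - wrA P3 Q3`, a polynomial in `Y` -/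
def chi (d : ℕ) (t : Ix d → A) : A[X] :=
  resultant ((Ph d t).map C)
    (C X * ((Q3 d t).map C) ^ 2 - (wrA (P3 d t) (Q3 d t)).map C : A[X][X]) (d ^ 3) (2 * d ^ 3)

end

/-- the multiplier of the fixed point `x` of the third iterate -/
def ml {K : Type*} [Field K] (d : ℕ) (t : Ix d → K) (x : K) : K :=
  (wrA (P3 d t) (Q3 d t)).eval x / (Q3 d t).eval x ^ 2

/-- **IT**: iterates (`u` monic of degree `d`, `deg w < d`). The last line is the chain rule, from
`hm d u P Q = Q ^ d u (P / Q)`. -/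
def S_IT : Prop := ∀ (K : Type u) [Field K] (d : ℕ), 2 ≤ d → ∀ u w : K[X], IsCoprime u w →
  u.Monic → u.natDegree = d → w.natDegree < d → ∀ n : ℕ,
  IsCoprime (it d u w n).1 (it d u w n).2 ∧ (it d u w n).1.Monic ∧
  (it d u w n).1.natDegree = d ^ n ∧ (it d u w n).2.natDegree < d ^ n ∧
  (∀ z : Option K, ratP1 (it d u w n).1 (it d u w n).2 (d ^ n) z = (ratP1 u w d)^[n] z) ∧
  ∀ x : K, (it d u w n).2.eval x ≠ 0 → (∀ m < n, w.eval ((vl u w)^[m] x) ≠ 0) ∧
    (it d u w n).1.eval x / (it d u w n).2.eval x = (vl u w)^[n] x ∧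
    (wrA (it d u w n).1 (it d u w n).2).eval x / (it d u w n).2.eval x ^ 2 =
      ∏ m ∈ range n, (wrA u w).eval ((vl u w)^[m] x) / w.eval ((vl u w)^[m] x) ^ 2

/-- **CHI**: functoriality, and the roots of `chi` are the multipliers.
(`Polynomial.resultant_map_map`, `Polynomial.resultant_eq_prod_eval` over the domain `K[X]`.) -/
def S_CHI : Prop := (∀ (A : Type u) (A' : Type v) [CommRing A] [CommRing A'] (φ : A →+* A') (d : ℕ)
    (t : Ix d → A), (P3 d t).map φ = P3 d (fun i => φ (t i)) ∧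
    (Q3 d t).map φ = Q3 d (fun i => φ (t i)) ∧ (Ph d t).map φ = Ph d (fun i => φ (t i)) ∧
    (chi d t).map φ = chi d (fun i => φ (t i))) ∧
  ∀ (K : Type u) [Field K] [CharZero K] (d : ℕ), 2 ≤ d → ∀ t : Ix d → K,
    IsCoprime (nu d t) (de d t) → (Ph d t).natDegree = d ^ 3 → (Ph d t).Splits →
    ∃ c : K, c ≠ 0 ∧ chi d t = C c * ((Ph d t).roots.map fun x => X - C (ml d t x)).prod

/-- **DIG**: `∑_{i < 3} θ (ζ ^ (d ^ i)) = 0` for all roots of unity `ζ` of order dividing `d ^ 3 - 1`, where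
`θ (z) = ∑_{1 ≤ j < d} (a_j z ^ j + b_j z ^ (-j))`, implies `θ = 0`: the `6 (d - 1)` exponents `± j d ^ i` are
different modulo `d ^ 3 - 1` (digits in base `d`). -/
def S_DIG : Prop := ∀ (F : Type u) [Field F] [CharZero F] (d : ℕ), 2 ≤ d →
  (X ^ (d ^ 3) - X : F[X]).Splits → ∀ a b : Fin (d - 1) → F,
  (∀ ζ : F, ζ ^ (d ^ 3 - 1) = 1 → ∑ i ∈ range 3, (∑ j, a j * (ζ ^ d ^ i) ^ (j.1 + 1) +
    ∑ j, b j * ((ζ ^ d ^ i) ^ (j.1 + 1))⁻¹) = 0) → (∀ j, a j = 0) ∧ ∀ j, b j = 0

/-- **RIG**: infinitesimal rigidity, from IT and DIG. Proof: suppose not; after division by the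
`δ (t i₀)` of largest valuation, all `δ (t i) ∈ O` and `δ (t i₀) = 1`. Let `F` be the residue field of `O`
(characteristic `0`). Modulo the maximal ideal `nu = X ^ d`, `de = 1`, so `P3 = X ^ (d ^ 3)`, `Q3 = 1`,
`Ph = X ^ (d ^ 3) - X`; the leading coefficient of `Ph` is a unit of `O`, its roots are in `O` and reduce to
all roots of `X ^ (d ^ 3) - X`, which splits over `F`. Let `ζ ^ (d ^ 3 - 1) = 1` in `F` and let the root `x`
reduce to `ζ`; `x_0 = x`, `x_1 = f (x_0)`, `x_2 = f (x_1)`, `f (x_2) = x_0` with `f = nu / de`; `x_i` reduces to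
`ζ_i = ζ ^ (d ^ i)`. Let `y_i = δ (x_i)`, `f' = wrA nu de / de ^ 2`, `g = (nu^δ de - nu de^δ) / de ^ 2` where
`^δ` means `δ` of the coefficients (`Derivation.mapCoeff`). Then `y_{i+1} = f' (x_i) y_i + g (x_i)`, so
`(1 - f'(x_0) f'(x_1) f'(x_2)) y_0 ∈ O`, the factor reduces to `1 - d ^ 3`, so all `y_i ∈ O`. Let
`η (z) = z ^ (-d) nu^δ - de^δ` over `F`. In `F`: `f' (x_i) = d ζ_i ^ (d-1)`, `g (x_i) = ζ_i ^ d η (ζ_i)`; with
`y_i = ζ_i ξ_i`: `ξ_{i+1} = d ξ_i + η (ζ_i)`, so `(d - 1) ∑ ξ_i = - ∑ η (ζ_i)`. As `ml = ∏ f' (x_i)`,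
`0 = ∑ δ (f' (x_i)) / f' (x_i)`, which is `∑ ((d - 1) ξ_i + η (ζ_i) + ζ_i η' (ζ_i) / d)`. So
`∑ ζ_i η' (ζ_i) = 0` and DIG (with `a_j = -(j+1) δ (t'_j)`, `b_(d-1-i-1) = -(d-i-1) δ (t_i)` up to the order)
gives that all `δ (t i)` are `0` in `F`, a contradiction to `δ (t i₀) = 1`. -/
def S_RIG : Prop := ∀ (E : Type u) [Field E] [CharZero E] (O : ValuationSubring E) (d : ℕ), 2 ≤ d →
  ∀ t : Ix d → E, (∀ n : ℕ, n ≠ 0 → (n : E)⁻¹ ∈ O) → (∀ i, O.valuation (t i) < 1) →
  (Ph d t).Splits → ∀ δ : Derivation ℤ E E, (∀ x, (Ph d t).eval x = 0 → δ (ml d t x) = 0) →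
  ∀ i, δ (t i) = 0

/-- **ALG**: the parameters are algebraic over the field generated by the coefficients of the monic
polynomial with roots the multipliers. From RIG and CHI. Proof: let `Ω` be an algebraic closure of
`FractionRing (MvPolynomial (Ix d) ℚ)`, `t i` the variables, `F₁ = ℚ(ml d t x : Ph (x) = 0)`, `E₁ ⊆ Ω` the
field generated over `F₁` by the finitely many `t i` and roots `x` of `Ph d t`. The localization of
`ℚ[t]` at the ideal of the variables is dominated by a valuation ring of `E₁`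
(`LocalSubring.exists_le_valuationSubring`). By RIG every `F₁`-derivation of `E₁` is zero on the
`t i`, hence on the `x` (algebraic over `ℚ(t)`, characteristic `0`), hence is zero, so `E₁ / F₁` is
formally unramified, and algebraic (`Algebra.FormallyUnramified.iff_isSeparable`). The elements
`ml d t x` are roots of `chi d t`, so algebraic over `ℚ(c_j / c_r)`. (At `t = 0`, `Ph = X ^ (d ^ 3) - X`
and `nu`, `de` are `X ^ d`, `1`, which gives the nonvanishing of `c_r`, `deg Ph = d ^ 3`, coprimality: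
`de (x) = 0 = nu (x)` is impossible modulo the maximal ideal.) -/
def S_ALG : Prop := ∀ (d : ℕ), 2 ≤ d →
  let R := MvPolynomial (Ix d) ℚ
  let c : R[X] := chi d (fun i => (MvPolynomial.X i : R))
  c.coeff (d ^ 3) ≠ 0 ∧ (Ph d (fun i => (MvPolynomial.X i : R))).coeff (d ^ 3) ≠ 0 ∧
  ∀ i, IsAlgebraic (IntermediateField.adjoin ℚ (Set.range fun j : Fin (d ^ 3 + 1) =>
      algebraMap R (FractionRing R) (c.coeff j) / algebraMap R (FractionRing R) (c.coeff (d ^ 3))))
    (algebraMap R (FractionRing R) (MvPolynomial.X i))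

/-- **SPEC**: the algebraic relations at special parameters: from ALG, clear denominators. The
polynomials `G i m` in the `d ^ 3 + 1` variables (for the `c_j / c_r`, `j ≤ d ^ 3`) are fixed. -/
def S_SPEC : Prop := ∀ (d : ℕ), 2 ≤ d → ∃ (D : MvPolynomial (Ix d) ℚ) (M : ℕ)
  (G : Ix d → ℕ → MvPolynomial (Fin (d ^ 3 + 1)) ℚ), D ≠ 0 ∧
  ∀ (K : Type u) [Field K] [CharZero K] (κ : Ix d → K), MvPolynomial.aeval κ D ≠ 0 →
    (chi d κ).coeff (d ^ 3) ≠ 0 ∧ (Ph d κ).coeff (d ^ 3) ≠ 0 ∧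
    ∀ i, (∃ m ≤ M, MvPolynomial.aeval (fun j : Fin (d ^ 3 + 1) =>
        (chi d κ).coeff j / (chi d κ).coeff (d ^ 3)) (G i m) ≠ 0) ∧
      ∑ m ∈ range (M + 1), MvPolynomial.aeval (fun j : Fin (d ^ 3 + 1) =>
        (chi d κ).coeff j / (chi d κ).coeff (d ^ 3)) (G i m) * κ i ^ m = 0

/-- **HT1**: heights of polynomial expressions (locally
`pole v (G (y)) ≤ totalDegree G * ∑ pole v (y_i)`). -/
def S_HT1 : Prop := ∀ (k : Type v) (K : Type u) [Field k] [CharZero k] [Field K] [CharZero K]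
  [Algebra k K] (Q : PlaceData.{w} k K) (τ : Type) [Fintype τ] (G : MvPolynomial τ ℚ) (y : τ → K),
  hQ Q (MvPolynomial.aeval y G) ≤ (G.totalDegree : ℤ) * ∑ i, hQ Q (y i)

/-- **HT2**: the height of a root: `pole v y ≤ ord v (b_top) + ∑ pole v (b_m)`, product formula for the
top nonzero coefficient. -/
def S_HT2 : Prop := ∀ (k : Type v) (K : Type u) [Field k] [Field K] [Algebra k K]
  (Q : PlaceData.{w} k K) (M : ℕ) (b : ℕ → K) (y : K), (∃ m ≤ M, b m ≠ 0) →
  ∑ m ∈ range (M + 1), b m * y ^ m = 0 → hQ Q y ≤ ∑ m ∈ range (M + 1), hQ Q (b m)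

/-- **HT3**: the coefficients of a product of linear factors. -/
def S_HT3 : Prop := ∀ (k : Type v) (K : Type u) [Field k] [Field K] [Algebra k K]
  (Q : PlaceData.{w} k K) (Λ : Multiset K) (j : ℕ),
  hQ Q ((Λ.map fun y => (X - C y : K[X])).prod.coeff j) ≤ (Λ.map fun y => hQ Q y).sum

end

end Pool.Agent.X328.GN
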