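import Mathlib
import Pool.Agent.X328.GN.Stm
import Pool.Agent.Results.MP_9b502d_nt.LargeCriticalHeight

/-! # Moving a fixed point to `0` -/

set_option autoImplicit false

namespace Pool.Agent.X328.GN

open Finset Polynomial
open Pool.Agent.Results.MP_9b502d_nt.LargeCriticalHeight (Conjugate)

noncomputable section

/-- numerator and denominator of `f (X + x) - x` -/
def tP {A : Type*} [CommRing A] (P Q : A[X]) (x : A) : A[X] :=
  P.comp (X + C x) - C x * Q.comp (X + C x)
def tQ {A : Type*} [CommRing A] (Q : A[X]) (x : A) : A[X] := Q.comp (X + C x)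

lemma map_tP {A A' : Type*} [CommRing A] [CommRing A'] (φ : A →+* A') (P Q : A[X]) (x : A) :
    (tP P Q x).map φ = tP (P.map φ) (Q.map φ) (φ x) := by
  unfold tP
  rw [Polynomial.map_sub, Polynomial.map_mul, Polynomial.map_comp, Polynomial.map_comp,
    Polynomial.map_add, Polynomial.map_X, Polynomial.map_C]

lemma map_tQ {A A' : Type*} [CommRing A] [CommRing A'] (φ : A →+* A') (Q : A[X]) (x : A) :
    (tQ Q x).map φ = tQ (Q.map φ) (φ x) := by
  unfold tQ
  rw [Polynomial.map_comp, Polynomial.map_add, Polynomial.map_X, Polynomial.map_C]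

variable {K : Type*} [Field K]

lemma natDegree_tQ (Q : K[X]) (x : K) : (tQ Q x).natDegree = Q.natDegree := by
  unfold tQ
  rw [natDegree_comp, natDegree_X_add_C, mul_one]

lemma natDegree_tP (P Q : K[X]) (x : K) (h : Q.natDegree < P.natDegree) :
    (tP P Q x).natDegree = P.natDegree := by
  unfold tP
  rw [natDegree_sub_eq_left_of_natDegree_lt]
  · rw [natDegree_comp, natDegree_X_add_C, mul_one]
  · refine (natDegree_C_mul_le _ _).trans_lt ?_
    rw [natDegree_comp, natDegree_X_add_C, mul_one, natDegree_comp, natDegree_X_add_C, mul_one]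
    exact h

lemma tP_coprime (P Q : K[X]) (x : K) (h : IsCoprime P Q) : IsCoprime (tP P Q x) (tQ Q x) := by
  have h1 : IsCoprime (P.comp (X + C x)) (Q.comp (X + C x)) := by
    obtain ⟨a, b, hab⟩ := h
    refine ⟨a.comp (X + C x), b.comp (X + C x), ?_⟩
    rw [← mul_comp, ← mul_comp, ← add_comp, hab, one_comp]
  have h2 : tP P Q x = P.comp (X + C x) + (-C x) * tQ Q x := by
    unfold tP tQ
    ring
  rw [h2]
  exact h1.add_mul_right_left _

lemma tP_zero (P Q : K[X]) (x : K) (h : P.eval x = x * Q.eval x) : (tP P Q x).coeff 0 = 0 := by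
  rw [coeff_zero_eq_eval_zero]
  unfold tP
  rw [eval_sub, eval_mul, eval_comp, eval_comp]
  simp [h]

lemma tQ_zero (Q : K[X]) (x : K) : (tQ Q x).coeff 0 = Q.eval x := by
  rw [coeff_zero_eq_eval_zero]
  unfold tQ
  rw [eval_comp]
  simp

lemma tP_one (P Q : K[X]) (x : K) :
    (tP P Q x).coeff 1 = (derivative P).eval x - x * (derivative Q).eval x := by
  have h1 : (tP P Q x).coeff 1 = (derivative (tP P Q x)).eval 0 := by
    rw [← coeff_zero_eq_eval_zero, coeff_derivative]
    simp
  rw [h1]
  unfold tP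
  simp only [derivative_sub, derivative_mul, derivative_C, zero_mul, zero_add, derivative_comp,
    derivative_add, derivative_X, add_zero, eval_sub, eval_mul, eval_comp, eval_add, eval_X, eval_C,
    eval_one, one_mul]

lemma tP_mult (P Q : K[X]) (x : K) (h : P.eval x = x * Q.eval x) (hQ : Q.eval x ≠ 0) :
    (tP P Q x).coeff 1 / (tQ Q x).coeff 0 = (wrA P Q).eval x / Q.eval x ^ 2 := by
  rw [tP_one, tQ_zero]
  unfold wrA
  rw [eval_sub, eval_mul, eval_mul, h]
  field_simp

lemma tP_conj (P Q : K[X]) (x : K) (D : ℕ) (hP : P.natDegree ≤ D) (hQ : Q.natDegree < P.natDegree) :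
    Conjugate P Q (tP P Q x) (tQ Q x) D := by
  have key : ∀ F : K[X], F.natDegree ≤ D → ∑ i ∈ Finset.range (D + 1),
      C (F.coeff i) * (C 1 * X + C (-x)) ^ i * (C 0 * X + C 1) ^ (D - i) =
        F.comp (X + C (-x)) := by
    intro F hF
    simp only [C_1, C_0, zero_mul, zero_add, one_pow, mul_one, one_mul]
    rw [comp, eval₂_eq_sum_range' C (Nat.lt_succ_of_le hF)]
  have hX : (X + C x : K[X]).comp (X + C (-x)) = X := by
    rw [add_comp, X_comp, C_comp, C_neg]
    ring
  have hc : ∀ F : K[X], (F.comp (X + C x)).comp (X + C (-x)) = F := by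
    intro F
    rw [comp_assoc, hX, comp_X]
  refine ⟨1, -x, 0, 1, by simp, 1, one_ne_zero, ?_, ?_⟩
  · rw [key _ (by rw [natDegree_tP P Q x hQ]; exact hP)]
    unfold tP
    rw [sub_comp, mul_comp, C_comp, hc, hc]
    simp only [C_1, C_neg, one_mul]
    ring
  · rw [key _ (by rw [natDegree_tQ]; omega)]
    unfold tQ
    rw [hc]
    simp

end

end Pool.Agent.X328.GN
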