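import Mathlib
import Pool.Agent.X328.GN.Stm
import Pool.Agent.X328.GN.Tr
import Pool.Agent.X328.FP.Hq

/-! # The height inequality for generic maps -/

set_option autoImplicit false

namespace Pool.Agent.X328.GN

open Finset Polynomial Pool.Agent.W277.UB
open Pool.Agent.X328.FP (hQ hQ_nonneg)

universe u v w

section

variable {A A' : Type*} [CommRing A] [CommRing A']

lemma map_nu (φ : A →+* A') (d : ℕ) (t : Ix d → A) :
    (nu d t).map φ = nu d (fun i => φ (t i)) := by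
  unfold nu
  simp [Polynomial.map_sum]

lemma map_de (φ : A →+* A') (d : ℕ) (t : Ix d → A) :
    (de d t).map φ = de d (fun i => φ (t i)) := by
  unfold de
  simp [Polynomial.map_sum, map_sub, map_add, map_sum]

end

/-- the coefficients of `Ph` have height at most a constant times the height of the parameters -/
theorem ineq_Ph (hmap : ∀ (A : Type) (A' : Type u) [CommRing A] [CommRing A'] (φ : A →+* A')
      (d : ℕ) (t : Ix d → A), (Ph d t).map φ = Ph d (fun i => φ (t i)))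
    (hHT1 : S_HT1.{u, v, w}) (hHT2 : S_HT2.{u, v, w}) (d : ℕ) :
    ∃ A₁ : ℕ, ∀ (k : Type v) (K : Type u) [Field k] [CharZero k] [Field K] [CharZero K]
      [Algebra k K] (Q : PlaceData.{w} k K) (κ : Ix d → K), (Ph d κ).coeff (d ^ 3) ≠ 0 →
      (Ph d κ).natDegree ≤ d ^ 3 → ∀ x : K, (Ph d κ).eval x = 0 →
        hQ Q x ≤ A₁ * ∑ i, hQ Q (κ i) := by
  classical
  set g : (MvPolynomial (Ix d) ℚ)[X] := Ph d (fun i => MvPolynomial.X i) with hg
  refine ⟨∑ m ∈ range (d ^ 3 + 1), (g.coeff m).totalDegree, ?_⟩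
  intro k K _ _ _ _ _ Q κ hc hdeg x hx
  have h1 : ∀ m, (Ph d κ).coeff m = MvPolynomial.aeval κ (g.coeff m) := by
    intro m
    have h2 := hmap (MvPolynomial (Ix d) ℚ) K (MvPolynomial.aeval κ : _ →ₐ[ℚ] K).toRingHom d
      (fun i => MvPolynomial.X i)
    have h3 : (fun i => (MvPolynomial.aeval κ : MvPolynomial (Ix d) ℚ →ₐ[ℚ] K).toRingHom
        (MvPolynomial.X i)) = κ := by
      funext i
      simp
    rw [h3] at h2
    rw [← h2, coeff_map]
    rfl
  have h2 : hQ Q x ≤ ∑ m ∈ range (d ^ 3 + 1), hQ Q ((Ph d κ).coeff m) := by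
    apply hHT2 k K Q (d ^ 3) (fun m => (Ph d κ).coeff m) x ⟨d ^ 3, le_rfl, hc⟩
    rw [← eval_eq_sum_range' (Nat.lt_succ_of_le hdeg)]
    exact hx
  refine h2.trans ?_
  push_cast
  rw [Finset.sum_mul]
  refine Finset.sum_le_sum fun m _ => ?_
  rw [h1]
  exact hHT1 k K Q (Ix d) _ κ

theorem ineq_tP (hmap : ∀ (A : Type) (A' : Type u) [CommRing A] [CommRing A'] (φ : A →+* A')
      (d : ℕ) (t : Ix d → A), (P3 d t).map φ = P3 d (fun i => φ (t i)) ∧
        (Q3 d t).map φ = Q3 d (fun i => φ (t i)))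
    (hHT1 : S_HT1.{u, v, w}) (d : ℕ) :
    ∃ A₂ : ℕ, ∀ (k : Type v) (K : Type u) [Field k] [CharZero k] [Field K] [CharZero K]
      [Algebra k K] (Q : PlaceData.{w} k K) (κ : Ix d → K) (x : K) (m : ℕ), m ≤ d ^ 3 →
        hQ Q ((tP (P3 d κ) (Q3 d κ) x).coeff m) ≤ A₂ * (hQ Q x + ∑ i, hQ Q (κ i)) ∧
        hQ Q ((tQ (Q3 d κ) x).coeff m) ≤ A₂ * (hQ Q x + ∑ i, hQ Q (κ i)) := by
  classical
  set R := MvPolynomial (Option (Ix d)) ℚ with hR
  set τ : Ix d → R := fun i => MvPolynomial.X (some i) with hτ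
  set ξ : R := MvPolynomial.X none with hξ
  set gP : R[X] := tP (P3 d τ) (Q3 d τ) ξ with hgP
  set gQ : R[X] := tQ (Q3 d τ) ξ with hgQ
  refine ⟨∑ m ∈ range (d ^ 3 + 1), ((gP.coeff m).totalDegree + (gQ.coeff m).totalDegree), ?_⟩
  intro k K _ _ _ _ _ Q κ x m hm
  set y : Option (Ix d) → K := fun o => o.elim x κ with hy
  set φ : R →+* K := (MvPolynomial.aeval y : R →ₐ[ℚ] K).toRingHom with hφ
  have hφτ : (fun i => φ (τ i)) = κ := by
    funext i
    exact MvPolynomial.aeval_X y (some i)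
  have hφξ : φ ξ = x := MvPolynomial.aeval_X y none
  obtain ⟨e1, e2⟩ := hmap R K φ d τ
  rw [hφτ] at e1 e2
  have h1 : (tP (P3 d κ) (Q3 d κ) x).coeff m = MvPolynomial.aeval y (gP.coeff m) := by
    rw [← e1, ← e2, ← hφξ, ← map_tP, coeff_map]
    rfl
  have h2 : (tQ (Q3 d κ) x).coeff m = MvPolynomial.aeval y (gQ.coeff m) := by
    rw [← e2, ← hφξ, ← map_tQ, coeff_map]
    rfl
  have h3 : ∑ o, hQ Q (y o) = hQ Q x + ∑ i, hQ Q (κ i) := by
    rw [Fintype.sum_option]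
    rfl
  have h4 : 0 ≤ hQ Q x + ∑ i, hQ Q (κ i) :=
    add_nonneg (hQ_nonneg Q x) (Finset.sum_nonneg fun i _ => hQ_nonneg Q _)
  have h5 : (gP.coeff m).totalDegree + (gQ.coeff m).totalDegree ≤
      ∑ m ∈ range (d ^ 3 + 1), ((gP.coeff m).totalDegree + (gQ.coeff m).totalDegree) :=
    Finset.single_le_sum (f := fun m => (gP.coeff m).totalDegree + (gQ.coeff m).totalDegree)
      (fun _ _ => Nat.zero_le _) (Finset.mem_range.2 (Nat.lt_succ_of_le hm))
  have h6 : ((gP.coeff m).totalDegree : ℤ) ≤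
      ((∑ m ∈ range (d ^ 3 + 1), ((gP.coeff m).totalDegree + (gQ.coeff m).totalDegree) : ℕ) : ℤ) := by
    exact_mod_cast (Nat.le_add_right _ _).trans h5
  have h7 : ((gQ.coeff m).totalDegree : ℤ) ≤
      ((∑ m ∈ range (d ^ 3 + 1), ((gP.coeff m).totalDegree + (gQ.coeff m).totalDegree) : ℕ) : ℤ) := by
    exact_mod_cast (Nat.le_add_left _ _).trans h5
  constructor
  · rw [h1, ← h3]
    refine (hHT1 k K Q _ _ y).trans ?_
    rw [h3]
    exact mul_le_mul_of_nonneg_right h6 h4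
  · rw [h2, ← h3]
    refine (hHT1 k K Q _ _ y).trans ?_
    rw [h3]
    exact mul_le_mul_of_nonneg_right h7 h4

/-- the parameters have height at most a constant times the height of the multipliers -/
theorem ineq_ka (hCHI : ∀ (K : Type u) [Field K] [CharZero K] (d : ℕ), 2 ≤ d → ∀ t : Ix d → K,
      IsCoprime (nu d t) (de d t) → (Ph d t).natDegree = d ^ 3 → (Ph d t).Splits →
      ∃ c : K, c ≠ 0 ∧ chi d t = C c * ((Ph d t).roots.map fun x => X - C (ml d t x)).prod)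
    (hHT1 : S_HT1.{u, v, w}) (hHT2 : S_HT2.{u, v, w}) (hHT3 : S_HT3.{u, v, w}) (d : ℕ)
    (hd : 2 ≤ d) (M : ℕ) (G : Ix d → ℕ → MvPolynomial (Fin (d ^ 3 + 1)) ℚ) :
    ∃ A₃ : ℕ, ∀ (k : Type v) (K : Type u) [Field k] [CharZero k] [Field K] [CharZero K]
      [Algebra k K] (Q : PlaceData.{w} k K) (κ : Ix d → K), IsCoprime (nu d κ) (de d κ) →
      (Ph d κ).natDegree = d ^ 3 → (Ph d κ).Splits →
      (∀ i, (∃ m ≤ M, MvPolynomial.aeval (fun j : Fin (d ^ 3 + 1) =>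
          (chi d κ).coeff j / (chi d κ).coeff (d ^ 3)) (G i m) ≠ 0) ∧
        ∑ m ∈ range (M + 1), MvPolynomial.aeval (fun j : Fin (d ^ 3 + 1) =>
          (chi d κ).coeff j / (chi d κ).coeff (d ^ 3)) (G i m) * κ i ^ m = 0) →
      ∑ i, hQ Q (κ i) ≤ A₃ * ((Ph d κ).roots.map fun x => hQ Q (ml d κ x)).sum := by
  classical
  refine ⟨∑ i, ∑ m ∈ range (M + 1), (G i m).totalDegree * (d ^ 3 + 1), ?_⟩
  intro k K _ _ _ _ _ Q κ hco hdeg hsp hrel
  obtain ⟨c, hc, hchi⟩ := hCHI K d hd κ hco hdeg hsp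
  set Λ : Multiset K := (Ph d κ).roots.map fun x => ml d κ x with hΛ
  have hchi' : chi d κ = C c * (Λ.map fun y => (X - C y : K[X])).prod := by
    rw [hchi, hΛ, Multiset.map_map]
    rfl
  have hcard : Λ.card = d ^ 3 := by
    rw [hΛ, Multiset.card_map, ← hsp.natDegree_eq_card_roots, hdeg]
  have htop : (Λ.map fun y => (X - C y : K[X])).prod.coeff (d ^ 3) = 1 := by
    have h1 : (Λ.map fun y => (X - C y : K[X])).prod.Monic := monic_multiset_prod_of_monic _ _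
      fun y _ => monic_X_sub_C y
    have h2 := h1.coeff_natDegree
    rw [natDegree_multiset_prod_X_sub_C_eq_card, hcard] at h2
    exact h2
  have hσ : ∀ j : ℕ, (chi d κ).coeff j / (chi d κ).coeff (d ^ 3) =
      (Λ.map fun y => (X - C y : K[X])).prod.coeff j := by
    intro j
    rw [hchi', coeff_C_mul, coeff_C_mul, htop, mul_one, mul_div_cancel_left₀ _ hc]
  set S := ((Ph d κ).roots.map fun x => hQ Q (ml d κ x)).sum with hS
  have hS' : (Λ.map fun y => hQ Q y).sum = S := by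
    rw [hΛ, Multiset.map_map]
    rfl
  have hS0 : 0 ≤ S := Multiset.sum_nonneg fun y hy => by
    rw [Multiset.mem_map] at hy
    obtain ⟨x, -, rfl⟩ := hy
    exact hQ_nonneg Q _
  have hσh : ∀ j : ℕ, hQ Q ((chi d κ).coeff j / (chi d κ).coeff (d ^ 3)) ≤ S := by
    intro j
    rw [hσ, ← hS']
    exact hHT3 k K Q Λ j
  have hsum : ∑ j : Fin (d ^ 3 + 1), hQ Q ((chi d κ).coeff j / (chi d κ).coeff (d ^ 3)) ≤
      (d ^ 3 + 1 : ℕ) * S := by
    refine (Finset.sum_le_card_nsmul Finset.univ (fun j : Fin (d ^ 3 + 1) =>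
      hQ Q ((chi d κ).coeff j / (chi d κ).coeff (d ^ 3))) S fun j _ => hσh j).trans ?_
    rw [Finset.card_univ, Fintype.card_fin, nsmul_eq_mul]
  push_cast
  rw [Finset.sum_mul]
  refine Finset.sum_le_sum fun i _ => ?_
  obtain ⟨h1, h2⟩ := hrel i
  refine (hHT2 k K Q M (fun m => MvPolynomial.aeval (fun j : Fin (d ^ 3 + 1) =>
    (chi d κ).coeff j / (chi d κ).coeff (d ^ 3)) (G i m)) (κ i) h1 h2).trans ?_
  rw [Finset.sum_mul]
  refine Finset.sum_le_sum fun m _ => ?_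
  refine (hHT1 k K Q (Fin (d ^ 3 + 1)) (G i m) _).trans ?_
  rw [mul_assoc]
  apply mul_le_mul_of_nonneg_left _ (Int.natCast_nonneg _)
  refine hsum.trans (le_of_eq ?_)
  push_cast
  ring

end Pool.Agent.X328.GN
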