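import Mathlib
import Pool.Agent.X328.FP.Lch
import Pool.Agent.Y195.CH.NRM
import Pool.Agent.Y362.CH.PD
import Pool.Agent.Y968.CH.Deg

/-! # Place data and the heights given by degrees -/

set_option autoImplicit false

namespace Pool.Agent.X328.GN

open Finset Polynomial Pool.Agent.W277.UB Pool.Agent.W277.UB.PlaceData Pool.Agent.W277.UH
open Pool.Agent.Y706.CH (hgt S_PD S_HT S_KF S_FDA S_HTA)
open Pool.Agent.X328.FP (wr vl hQ iter_rat le_ls pole_fin hQ_supp hQ_nonneg hQ_pos)

universe u v w

theorem pdk (n' : ℕ) :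
    ∃ C₀ : ℕ, ∀ (k : Type v) (M : Type u) [Field k] [CharZero k] [Field M] [Algebra k M] (t : M),
    Transcendental k t → FiniteDimensional (IntermediateField.adjoin k {t}) M →
    Module.finrank (IntermediateField.adjoin k {t}) M ≤ n' →
    ∃ Q : PlaceData.{u} (algebraicClosure k M) M, ∀ y : M, hQ Q y ≤ C₀ * (hgt k (some y) : ℤ) ∧
      (hgt k (some y) : ℤ) ≤ C₀ * hQ Q y := by
  classical
  obtain ⟨Cf, hCf⟩ := Pool.Agent.Y362.CH.t_PD.{u, u}
  set C₁ : ℕ := (range (n' + 1)).sup Cf with hC₁
  refine ⟨(n' + 1) * C₁, ?_⟩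
  intro k M _ _ _ _ t ht hfd hn
  obtain ⟨inst, hst, hfin, hle⟩ := Pool.Agent.W277.UD.exists_ratAlg k M t ht
  obtain ⟨hkf, hkfle⟩ := Pool.Agent.Y968.CH.t_KF k M t ht hfd
  have : CharZero (algebraicClosure k M) :=
    charZero_of_injective_algebraMap (algebraMap k (algebraicClosure k M)).injective
  have : CharZero (RatFunc (algebraicClosure k M)) := charZero_of_injective_algebraMap
    (algebraMap (algebraicClosure k M) (RatFunc (algebraicClosure k M))).injective
  have halg : ∀ x : M, IsAlgebraic (algebraicClosure k M) x →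
      ∃ c : (algebraicClosure k M), algebraMap (algebraicClosure k M) M c = x := by
    intro y hy
    have h1 : IsAlgebraic k y := hy.restrictScalars k
    exact ⟨⟨y, h1.isIntegral⟩, rfl⟩
  obtain ⟨t₁, ht₁, hfd₁⟩ := Pool.Agent.Y195.CH.t_FDA (algebraicClosure k M) M
  have hcomp : ∀ x : M, Module.finrank (IntermediateField.adjoin (algebraicClosure k M) {x}) M ≤
      Module.finrank (IntermediateField.adjoin k {x}) M ∧
      Module.finrank (IntermediateField.adjoin k {x}) M ≤
        n' * Module.finrank (IntermediateField.adjoin (algebraicClosure k M) {x}) M := by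
    intro x
    obtain ⟨h1, h2⟩ := Pool.Agent.Y968.CH.t_HT k (algebraicClosure k M) M M t₁ ht₁ hfd₁ x
    refine ⟨h1, h2.trans ?_⟩
    rw [Module.finrank_self, mul_one]
    exact Nat.mul_le_mul_right _ (hkfle.trans hn)
  have hnc : ∀ c : algebraicClosure k M, t ≠ algebraMap (algebraicClosure k M) M c := by
    intro c hc
    apply ht
    rw [hc]
    exact mem_algebraicClosure_iff.mp c.2
  obtain ⟨x, -, hxgen, hxc⟩ := Pool.Agent.W277.UD.exists_gen (k := algebraicClosure k M)
    (F := RatFunc (algebraicClosure k M)) (E := M) Set.univ (IntermediateField.adjoin_univ _ _)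
    t (Set.mem_univ _) hnc
  obtain ⟨Q, -, hQ2⟩ := hCf (algebraicClosure k M) M halg x hxgen hxc
  have hC : Cf (Module.finrank (RatFunc (algebraicClosure k M)) M) ≤ C₁ :=
    Finset.le_sup (f := Cf) (Finset.mem_range.2 (Nat.lt_succ_of_le (hle.trans hn)))
  refine ⟨Q, fun y => ?_⟩
  obtain ⟨S, hS⟩ := pole_fin Q {y}
  have h1 := hQ2 y S (hS y (by simp))
  rw [hQ_supp Q y S (hS y (by simp))] at h1
  have h2 := hcomp y
  have h3 : hgt k (some y) = Module.finrank (IntermediateField.adjoin k {y}) M := rfl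
  rw [h3]
  have h4 := hQ_nonneg Q y
  have hC' : (Cf (Module.finrank (RatFunc (algebraicClosure k M)) M) : ℤ) ≤ C₁ := by
    exact_mod_cast hC
  constructor
  · calc hQ Q y ≤ Cf (Module.finrank (RatFunc (algebraicClosure k M)) M) *
          Module.finrank (IntermediateField.adjoin (algebraicClosure k M) {y}) M := h1.1
      _ ≤ C₁ * Module.finrank (IntermediateField.adjoin k {y}) M := by
          exact_mod_cast Nat.mul_le_mul hC h2.1
      _ ≤ ((n' + 1) * C₁ : ℕ) * Module.finrank (IntermediateField.adjoin k {y}) M := by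
          exact_mod_cast Nat.mul_le_mul_right _ (Nat.le_mul_of_pos_left _ (Nat.succ_pos _))
  · calc (Module.finrank (IntermediateField.adjoin k {y}) M : ℤ)
        ≤ n' * Module.finrank (IntermediateField.adjoin (algebraicClosure k M) {y}) M := by
          exact_mod_cast h2.2
      _ ≤ n' * (Cf (Module.finrank (RatFunc (algebraicClosure k M)) M) * hQ Q y) :=
          mul_le_mul_of_nonneg_left h1.2 (Int.natCast_nonneg _)
      _ ≤ n' * (C₁ * hQ Q y) :=
          mul_le_mul_of_nonneg_left (mul_le_mul_of_nonneg_right hC' h4) (Int.natCast_nonneg _)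
      _ ≤ (n' + 1) * (C₁ * hQ Q y) := by
          apply mul_le_mul_of_nonneg_right (by linarith)
          exact mul_nonneg (Int.natCast_nonneg _) h4
      _ = ((n' + 1) * C₁ : ℕ) * hQ Q y := by push_cast; ring

end Pool.Agent.X328.GN
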