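import Pool.Agent.X328.GN.Stm2

/-!
# Project GN: the exceptional set does not contain the class of `X ^ d`
-/

set_option autoImplicit false

namespace Pool.Agent.X328.GN

open Finset Polynomial
open Pool.Agent.Results.MP_9b502d_nt.LargeCriticalHeight (Conjugate)

universe u v w

noncomputable section

/-- **SPEC2**: as `S_SPEC`, with finitely many systems of relations and `D (0) ≠ 0`. -/
def S_SPEC2 : Prop := ∀ (d : ℕ), 2 ≤ d → ∃ (D : MvPolynomial (Ix d) ℚ)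
  (S : Finset (ℕ × (Ix d → ℕ → MvPolynomial (Fin (d ^ 3 + 1)) ℚ))),
  MvPolynomial.aeval (fun _ => (0 : ℚ)) D ≠ 0 ∧
  ∀ (K : Type u) [Field K] [CharZero K] (κ : Ix d → K), MvPolynomial.aeval κ D ≠ 0 →
    (chi d κ).coeff (d ^ 3) ≠ 0 ∧ (Ph d κ).coeff (d ^ 3) ≠ 0 ∧ ∃ s ∈ S, ∀ i,
      (∃ m ≤ s.1, MvPolynomial.aeval (fun j : Fin (d ^ 3 + 1) =>
        (chi d κ).coeff j / (chi d κ).coeff (d ^ 3)) (s.2 i m) ≠ 0) ∧
      ∑ m ∈ range (s.1 + 1), MvPolynomial.aeval (fun j : Fin (d ^ 3 + 1) =>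
        (chi d κ).coeff j / (chi d κ).coeff (d ^ 3)) (s.2 i m) * κ i ^ m = 0

/-- the coefficients of `2 ^ d X ^ d`; with `bz` the conjugate of `X ^ d` with the fixed points `0`, `-1`, `1`
corresponding to `0`, `1`, `∞` (by `X / (X - 2)`) -/
def az (d : ℕ) : Fin (d + 1) → ℚ := fun i => (C (2 ^ d) * X ^ d : ℚ[X]).coeff i

/-- the coefficients of `2 ^ d X ^ d - 2 (X - 1) ^ d` -/
def bz (d : ℕ) : Fin (d + 1) → ℚ := fun i => (C (2 ^ d) * X ^ d - C 2 * (X - 1) ^ d : ℚ[X]).coeff i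

/-- **DEL2**: elimination of the fixed points, keeping the class of `X ^ d`. -/
def S_DEL2 : Prop := ∀ (d : ℕ), 2 ≤ d → ∀ D : MvPolynomial (Ix d) ℤ,
  MvPolynomial.aeval (fun _ => (0 : ℤ)) D ≠ 0 →
  ∃ Δ : MvPolynomial (Fin (d + 1) ⊕ Fin (d + 1)) ℤ,
  MvPolynomial.aeval (Sum.elim (az d) (bz d)) Δ ≠ 0 ∧
  ∀ (K : Type u) [Field K] [IsAlgClosed K] [CharZero K] (a b : Fin (d + 1) → K),
    IsCoprime (ofc d a) (ofc d b) → MvPolynomial.aeval (Sum.elim a b) Δ ≠ 0 →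
    ∃ x y z : K, x ≠ y ∧ y ≠ z ∧ x ≠ z ∧ (ofc d a).eval x = x * (ofc d b).eval x ∧
      (ofc d a).eval y = y * (ofc d b).eval y ∧ (ofc d a).eval z = z * (ofc d b).eval z ∧
      MvPolynomial.aeval (kap d (ofc d a) (ofc d b) x y z) D ≠ 0

/-- **EL1** (elimination of one root; proof: the coefficients `j < n` of the resultant in `Z` of `F` and `W - G`, which
is `c ∏ (W - G (z))` over the `n` roots). -/
def S_EL1 : Prop := ∀ (A : Type) [CommRing A] (n : ℕ) (F G : A[X]), F.natDegree ≤ n →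
  ∃ g : Fin n → A, ∀ (K : Type u) [Field K] [IsAlgClosed K] (φ : A →+* K), φ (F.coeff n) ≠ 0 →
    ((∃ j, φ (g j) ≠ 0) ↔ ∃ z : K, (F.map φ).eval z = 0 ∧ (G.map φ).eval z ≠ 0)

/-- **CLR** (clearing denominators: `E` vanishes if the three points are not different or `z` is a pole). -/
def S_CLR : Prop := ∀ (d : ℕ), 2 ≤ d → ∀ D : MvPolynomial (Ix d) ℤ,
  ∃ E : MvPolynomial ((Fin (d + 1) ⊕ Fin (d + 1)) ⊕ Fin 3) ℤ, ∀ (K : Type u) [Field K]
    (a b : Fin (d + 1) → K) (x y z : K),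
    MvPolynomial.aeval (Sum.elim (Sum.elim a b) ![x, y, z]) E ≠ 0 ↔
      x ≠ y ∧ y ≠ z ∧ x ≠ z ∧ (ofc d b).eval z ≠ 0 ∧
      MvPolynomial.aeval (kap d (ofc d a) (ofc d b) x y z) D ≠ 0

end

end Pool.Agent.X328.GN
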