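import Pool.Agent.X328.GN.Stm

/-!
# GN: iterates (S_IT)
-/

set_option autoImplicit false

namespace Pool.Agent.X328.GN

open Finset Polynomial Pool.Agent.W277.UB Pool.Agent.W277.UH
open Pool.Agent.X328.FP (wr vl hQ)

universe u v w

namespace It

variable {K : Type u} [Field K]

theorem hm_eval (d : ℕ) (F P Q : K[X]) (hF : F.natDegree ≤ d) (x : K) (hx : Q.eval x ≠ 0) :
    (hm d F P Q).eval x = Q.eval x ^ d * F.eval (P.eval x / Q.eval x) := by
  rw [hm, eval_finsetSum, Polynomial.eval_eq_sum_range' (p := F) (n := d + 1) (by omega), Finset.mul_sum]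
  refine Finset.sum_congr rfl fun i hi => ?_
  have hi' : i ≤ d := by
    have := Finset.mem_range.1 hi
    omega
  rw [eval_mul, eval_mul, eval_C, eval_pow, eval_pow, div_pow]
  rw [show Q.eval x ^ d = Q.eval x ^ i * Q.eval x ^ (d - i) by
    rw [← pow_add]; congr 1; omega]
  field_simp

theorem hm_eval0 (d : ℕ) (F P Q : K[X]) (x : K) (hx : Q.eval x = 0) :
    (hm d F P Q).eval x = F.coeff d * P.eval x ^ d := by
  rw [hm, eval_finsetSum, Finset.sum_eq_single d]
  · simp
  · intro i hi hid
    have hi' : i < d := by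
      have := Finset.mem_range.1 hi
      omega
    rw [eval_mul, eval_pow, hx, zero_pow (by omega), mul_zero]
  · intro h
    exact absurd (Finset.mem_range.2 (Nat.lt_succ_self d)) h

theorem hm_map {L : Type v} [Field L] (φ : K →+* L) (d : ℕ) (F P Q : K[X]) :
    (hm d F P Q).map φ = hm d (F.map φ) (P.map φ) (Q.map φ) := by
  rw [hm, hm, Polynomial.map_sum]
  refine Finset.sum_congr rfl fun i _ => ?_
  simp [Polynomial.map_mul, Polynomial.map_pow]

theorem natDegree_term (d m i : ℕ) (c : K) (P Q : K[X]) (hm0 : 1 ≤ m) (hP : P.natDegree ≤ m)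
    (hQ : Q.natDegree < m) (hi : i < d) : (C c * P ^ i * Q ^ (d - i)).natDegree < d * m := by
  have h1 : (C c * P ^ i * Q ^ (d - i)).natDegree ≤ i * m + (d - i) * (m - 1) := by
    refine natDegree_mul_le.trans (Nat.add_le_add ?_ ?_)
    · refine (natDegree_C_mul_le _ _).trans ?_
      exact natDegree_pow_le.trans (Nat.mul_le_mul_left _ hP)
    · exact natDegree_pow_le.trans (Nat.mul_le_mul_left _ (by omega))
  have h2 : (d - i) * (m - 1) + (d - i) = (d - i) * m := by
    obtain ⟨r, rfl⟩ : ∃ r, m = r + 1 := ⟨m - 1, by omega⟩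
    simp [Nat.mul_succ]
  have h3 : i * m + (d - i) * m = d * m := by
    rw [← Nat.add_mul]
    congr 1
    omega
  omega

theorem hm_w (d m : ℕ) (F P Q : K[X]) (hd : 1 ≤ d) (hm0 : 1 ≤ m) (hP : P.natDegree ≤ m)
    (hQ : Q.natDegree < m) (hF : F.natDegree < d) : (hm d F P Q).natDegree < d * m := by
  rw [hm, Finset.sum_range_succ, coeff_eq_zero_of_natDegree_lt hF]
  simp only [map_zero, zero_mul, add_zero]
  refine (natDegree_sum_le_of_forall_le (n := d * m - 1) _ _ fun i hi => ?_).trans_lt ?_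
  · have := natDegree_term d m i (F.coeff i) P Q hm0 hP hQ (Finset.mem_range.1 hi)
    omega
  · have : 0 < d * m := Nat.mul_pos hd hm0
    omega

theorem hm_u (d m : ℕ) (F P Q : K[X]) (hd : 1 ≤ d) (hm0 : 1 ≤ m) (hP : P.natDegree = m)
    (hPm : P.Monic) (hQ : Q.natDegree < m) (hF : F.natDegree = d) (hFm : F.Monic) :
    (hm d F P Q).Monic ∧ (hm d F P Q).natDegree = d * m := by
  have hdm : 0 < d * m := Nat.mul_pos hd hm0
  have e : hm d F P Q = P ^ d + ∑ i ∈ range d, C (F.coeff i) * P ^ i * Q ^ (d - i) := by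
    rw [hm, Finset.sum_range_succ, show F.coeff d = 1 by rw [← hF]; exact hFm]
    simp [add_comm]
  have h1 : (∑ i ∈ range d, C (F.coeff i) * P ^ i * Q ^ (d - i)).natDegree ≤ d * m - 1 := by
    refine natDegree_sum_le_of_forall_le _ _ fun i hi => ?_
    have := natDegree_term d m i (F.coeff i) P Q hm0 hP.le hQ (Finset.mem_range.1 hi)
    omega
  have h2 : (P ^ d).natDegree = d * m := by rw [hPm.natDegree_pow, hP]
  have h3 : (∑ i ∈ range d, C (F.coeff i) * P ^ i * Q ^ (d - i)).degree < (P ^ d).degree := by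
    rw [degree_eq_natDegree (hPm.pow d).ne_zero, h2]
    refine lt_of_le_of_lt degree_le_natDegree ?_
    exact_mod_cast (by omega : (∑ i ∈ range d, C (F.coeff i) * P ^ i * Q ^ (d - i)).natDegree < d * m)
  rw [e]
  refine ⟨(hPm.pow d).add_of_left h3, ?_⟩
  rw [natDegree_add_eq_left_of_degree_lt h3, h2]

theorem hm_coprime (d : ℕ) (hd : 1 ≤ d) (u w P Q : K[X]) (huw : IsCoprime u w)
    (hu : u.Monic) (hud : u.natDegree = d) (hwd : w.natDegree < d) (hPQ : IsCoprime P Q) :
    IsCoprime (hm d u P Q) (hm d w P Q) := by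
  rw [Polynomial.isCoprime_iff_aeval_ne_zero_of_isAlgClosed K (AlgebraicClosure K)]
  intro x
  by_contra hcon
  push Not at hcon
  obtain ⟨h1, h2⟩ := hcon
  set φ := algebraMap K (AlgebraicClosure K) with hφ
  rw [aeval_def, ← eval_map, ← hφ, hm_map] at h1 h2
  by_cases hQ : (Q.map φ).eval x = 0
  · rw [hm_eval0 _ _ _ _ _ hQ, coeff_map, ← hud, hu.coeff_natDegree, map_one, one_mul] at h1
    have hP : (P.map φ).eval x = 0 := pow_eq_zero_iff (by omega) |>.1 h1
    have := (Polynomial.isCoprime_iff_aeval_ne_zero_of_isAlgClosed K (AlgebraicClosure K) P Q).1 hPQ x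
    rw [aeval_def, ← eval_map, aeval_def, ← eval_map, ← hφ] at this
    rcases this with h | h
    · exact h hP
    · exact h hQ
  · rw [hm_eval _ _ _ _ (by rw [natDegree_map]; omega) _ hQ] at h1 h2
    have h1' := (mul_eq_zero.1 h1).resolve_left (pow_ne_zero _ hQ)
    have h2' := (mul_eq_zero.1 h2).resolve_left (pow_ne_zero _ hQ)
    have := (Polynomial.isCoprime_iff_aeval_ne_zero_of_isAlgClosed K (AlgebraicClosure K) u w).1 huw
      ((P.map φ).eval x / (Q.map φ).eval x)
    rw [aeval_def, ← eval_map, aeval_def, ← eval_map, ← hφ] at this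
    rcases this with h | h
    · exact h h1'
    · exact h h2'

theorem hm_deriv (d : ℕ) (F P Q : K[X]) (hF : F.natDegree ≤ d) (x : K) (hx : Q.eval x ≠ 0) :
    Q.eval x ^ 2 * (derivative (hm d F P Q)).eval x =
      d * Q.eval x ^ (d + 1) * (derivative Q).eval x * F.eval (P.eval x / Q.eval x) +
      Q.eval x ^ d * (derivative F).eval (P.eval x / Q.eval x) * (wrA P Q).eval x := by
  set z := P.eval x / Q.eval x with hz
  have hPz : P.eval x = z * Q.eval x := by rw [hz]; field_simp
  have e1 : (derivative F).eval z = ∑ i ∈ range (d + 1), F.coeff i * i * z ^ (i - 1) := by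
    rw [Polynomial.derivative_eval]
    rw [Polynomial.sum_over_range' _ (by simp) (d + 1) (by omega)]
  rw [hm, derivative_sum, eval_finsetSum, Finset.mul_sum, e1,
    Polynomial.eval_eq_sum_range' (p := F) (n := d + 1) (by omega), Finset.mul_sum, Finset.mul_sum,
    Finset.sum_mul, ← Finset.sum_add_distrib]
  refine Finset.sum_congr rfl fun i hi => ?_
  have hi' : i ≤ d := by
    have := Finset.mem_range.1 hi
    omega
  have hw : (wrA P Q).eval x = (derivative P).eval x * Q.eval x - z * Q.eval x * (derivative Q).eval x := by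
    rw [wrA, eval_sub, eval_mul, eval_mul, hPz]
  rw [hw]
  obtain ⟨j, rfl⟩ : ∃ j, d = i + j := ⟨d - i, by omega⟩
  rw [show i + j - i = j by omega]
  rcases i with _ | i <;> rcases j with _ | j <;>
  simp [derivative_mul, derivative_pow, hPz] <;> ring

theorem hm_wr (d : ℕ) (u w P Q : K[X]) (hu : u.natDegree ≤ d) (hw : w.natDegree ≤ d) (x : K)
    (hx : Q.eval x ≠ 0) (hwx : w.eval (P.eval x / Q.eval x) ≠ 0) :
    (wrA (hm d u P Q) (hm d w P Q)).eval x / (hm d w P Q).eval x ^ 2 =
      (wrA P Q).eval x / Q.eval x ^ 2 *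
      ((wrA u w).eval (P.eval x / Q.eval x) / w.eval (P.eval x / Q.eval x) ^ 2) := by
  have h1 := hm_deriv d u P Q hu x hx
  have h2 := hm_deriv d w P Q hw x hx
  have h3 := hm_eval d u P Q hu x hx
  have h4 := hm_eval d w P Q hw x hx
  set z := P.eval x / Q.eval x with hz
  have h5 : (wrA (hm d u P Q) (hm d w P Q)).eval x =
      (derivative (hm d u P Q)).eval x * (hm d w P Q).eval x -
      (hm d u P Q).eval x * (derivative (hm d w P Q)).eval x := by
    rw [wrA, eval_sub, eval_mul, eval_mul]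
  have h6 : (wrA u w).eval z = (derivative u).eval z * w.eval z - u.eval z * (derivative w).eval z := by
    rw [wrA, eval_sub, eval_mul, eval_mul]
  have h7 : Q.eval x ^ 2 * (wrA (hm d u P Q) (hm d w P Q)).eval x =
      Q.eval x ^ (2 * d) * (wrA P Q).eval x * (wrA u w).eval z := by
    rw [h5, h6]
    have : Q.eval x ^ 2 * ((derivative (hm d u P Q)).eval x * (hm d w P Q).eval x -
        (hm d u P Q).eval x * (derivative (hm d w P Q)).eval x) =
        (Q.eval x ^ 2 * (derivative (hm d u P Q)).eval x) * (hm d w P Q).eval x -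
        (hm d u P Q).eval x * (Q.eval x ^ 2 * (derivative (hm d w P Q)).eval x) := by ring
    rw [this, h1, h2, h3, h4]
    ring
  have h8 : (wrA (hm d u P Q) (hm d w P Q)).eval x =
      Q.eval x ^ (2 * d) * (wrA P Q).eval x * (wrA u w).eval z / Q.eval x ^ 2 := by
    rw [eq_div_iff (pow_ne_zero 2 hx), mul_comm, h7]
  rw [h8, h4]
  have hQd : Q.eval x ^ d ≠ 0 := pow_ne_zero _ hx
  rw [show Q.eval x ^ (2 * d) = (Q.eval x ^ d) ^ 2 by rw [← pow_mul, mul_comm]]
  field_simp

/-- S_IT -/
theorem it_all : S_IT.{u} := by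
  intro K _ d hd u w huw hu hud hwd n
  induction n with
  | zero =>
    refine ⟨isCoprime_one_right, monic_X, by simp [it], by simp [it], ?_, ?_⟩
    · intro z
      rcases z with _ | x
      · rw [ratP1_none0 _ _ _ (by simp [it, coeff_one])]
        rfl
      · rw [ratP1_some _ _ _ _ (by simp [it])]
        simp [it]
    · intro x hx
      refine ⟨fun m hm => absurd hm (Nat.not_lt_zero _), by simp [it], ?_⟩
      simp [it, wrA]
  | succ n ih =>
    obtain ⟨i1, i2, i3, i4, i5, i6⟩ := ih
    have hm0 : 1 ≤ d ^ n := Nat.one_le_pow _ _ (by omega)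
    have e1 : (it d u w (n + 1)).1 = hm d u (it d u w n).1 (it d u w n).2 := rfl
    have e2 : (it d u w (n + 1)).2 = hm d w (it d u w n).1 (it d u w n).2 := rfl
    set P := (it d u w n).1 with hP
    set Q := (it d u w n).2 with hQ
    have hwc : w.coeff d = 0 := coeff_eq_zero_of_natDegree_lt hwd
    have hdn : d ^ (n + 1) = d * d ^ n := by rw [pow_succ, mul_comm]
    have j1 := hm_coprime d (by omega) u w P Q huw hu hud hwd i1
    have j2 := hm_u d (d ^ n) u P Q (by omega) hm0 i3 i2 i4 hud hu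
    have j3 := hm_w d (d ^ n) w P Q (by omega) hm0 i3.le i4 hwd
    rw [e1, e2, hdn]
    have key : ∀ x : K, (hm d w P Q).eval x ≠ 0 → Q.eval x ≠ 0 ∧ w.eval (P.eval x / Q.eval x) ≠ 0 := by
      intro x hx
      have hq : Q.eval x ≠ 0 := by
        intro h
        rw [hm_eval0 _ _ _ _ _ h, hwc, zero_mul] at hx
        exact hx rfl
      refine ⟨hq, ?_⟩
      intro h
      rw [hm_eval _ _ _ _ hwd.le _ hq, h, mul_zero] at hx
      exact hx rfl
    refine ⟨j1, j2.1, j2.2, j3, ?_, ?_⟩
    · intro z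
      rw [Function.iterate_succ_apply', ← i5]
      rcases z with _ | x
      · rw [ratP1_none0 _ _ _ (coeff_eq_zero_of_natDegree_lt j3),
          ratP1_none0 P Q _ (coeff_eq_zero_of_natDegree_lt i4), ratP1_none0 u w _ hwc]
      · by_cases hq : Q.eval x = 0
        · rw [ratP1_some0 P Q _ _ hq, ratP1_none0 u w _ hwc, ratP1_some0]
          rw [hm_eval0 _ _ _ _ _ hq, hwc, zero_mul]
        · rw [ratP1_some P Q _ _ hq]
          by_cases hz : w.eval (P.eval x / Q.eval x) = 0
          · rw [ratP1_some0 u w _ _ hz, ratP1_some0]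
            rw [hm_eval _ _ _ _ hwd.le _ hq, hz, mul_zero]
          · rw [ratP1_some u w _ _ hz, ratP1_some, hm_eval _ _ _ _ hwd.le _ hq,
              hm_eval _ _ _ _ hud.le _ hq, mul_div_mul_left _ _ (pow_ne_zero _ hq)]
            rw [hm_eval _ _ _ _ hwd.le _ hq]
            exact mul_ne_zero (pow_ne_zero _ hq) hz
    · intro x hx
      obtain ⟨hq, hz⟩ := key x hx
      obtain ⟨k1, k2, k3⟩ := i6 x hq
      have e3 : (vl u w)^[n + 1] x = vl u w (P.eval x / Q.eval x) := by
        rw [Function.iterate_succ_apply', k2]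
      refine ⟨?_, ?_, ?_⟩
      · intro m hm'
        rcases Nat.lt_succ_iff_lt_or_eq.1 hm' with h | h
        · exact k1 m h
        · rw [h, ← k2]
          exact hz
      · rw [e3, vl, hm_eval _ _ _ _ hwd.le _ hq, hm_eval _ _ _ _ hud.le _ hq,
          mul_div_mul_left _ _ (pow_ne_zero _ hq)]
      · rw [hm_wr d u w P Q hud.le hwd.le x hq hz, k3, Finset.prod_range_succ, k2]

end It

end Pool.Agent.X328.GN
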