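import Mathlib
import Pool.Agent.Y31.BI.Bdg

set_option autoImplicit false

namespace Pool.Agent.X328.GN

open Polynomial Pool.Agent.Y706.BI

universe u v w

/-- isotriviality over an algebraic closure passes to every algebraically closed field -/
lemma iso_up {k : Type v} {E : Type u} {A : Type w} [Field k] [Field E] [Field A] [IsAlgClosed A]
    [Algebra k E] [Algebra k A] [Algebra E A] [IsScalarTower k E A] (p q : E[X]) (d : ℕ)
    (h : IsoAlg k (p.map (algebraMap E (AlgebraicClosure E)))
      (q.map (algebraMap E (AlgebraicClosure E))) d) :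
    IsoAlg k (p.map (algebraMap E A)) (q.map (algebraMap E A)) d := by
  let j : AlgebraicClosure E →ₐ[E] A := IsAlgClosed.lift
  have h1 := Pool.Agent.Y31.BI.isoAlg_map (j.restrictScalars k) h
  have h2 : ∀ g : E[X], (g.map (algebraMap E (AlgebraicClosure E))).map
      ((j.restrictScalars k : AlgebraicClosure E →ₐ[k] A) : AlgebraicClosure E →+* A) =
      g.map (algebraMap E A) := by
    intro g
    rw [Polynomial.map_map]
    congr 1
    exact j.comp_algebraMap
  rw [h2, h2] at h1
  exact h1

end Pool.Agent.X328.GN
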