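import Mathlib
import Pool.Agent.X328.GN.IsoUp
import Pool.Agent.Results.MP_9b502d_nt.AllMapsCharZero

/-! # Exceptional iterates and isomorphisms of fields -/

set_option autoImplicit false

namespace Pool.Agent.X328.GN

open Polynomial Pool.Agent.W277.UH
open Pool.Agent.Results.MP_9b502d_nt.LargeCriticalHeight (Conjugate mapP1)
open Pool.Agent.Results.MP_9b502d_nt.AllMapsCharZero (Ix num den IsExceptional HasExceptionalIterate)

universe u v w

section

variable {K : Type u} {K' : Type v} [Field K] [Field K']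

lemma num_map (φ : K →+* K') (d : ℕ) (κ : Ix d → K) :
    (num d κ).map φ = num d (fun i => φ (κ i)) := by
  unfold num
  simp [Polynomial.map_sum]

lemma den_map (φ : K →+* K') (d : ℕ) (κ : Ix d → K) :
    (den d κ).map φ = den d (fun i => φ (κ i)) := by
  unfold den
  simp [Polynomial.map_sum]

lemma mapP1_eq (p q : K[X]) (d : ℕ) : mapP1 p q d = ratP1 p q d := by
  funext z
  cases z <;> rfl

lemma mapP1_iter (φ : K →+* K') (p q : K[X]) (d l : ℕ) (z : Option K) :
    (mapP1 (p.map φ) (q.map φ) d)^[l] (z.map φ) = ((mapP1 p q d)^[l] z).map φ := by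
  rw [mapP1_eq, mapP1_eq]
  exact Pool.Agent.Y31.BI.ratP1_iter_map φ p q d z l

lemma mapP1_map (φ : K →+* K') (p q : K[X]) (d : ℕ) (z : Option K) :
    mapP1 (p.map φ) (q.map φ) d (z.map φ) = (mapP1 p q d z).map φ :=
  mapP1_iter φ p q d 1 z

lemma exceptional_map [CharZero K] [CharZero K'] (φ : K →+* K') (d : ℕ) (κ : Ix d → K)
    (h : IsExceptional d κ) : IsExceptional d (fun i => φ (κ i)) := by
  obtain ⟨Ω, i1, i2, i3, κ', h1, h2, h3⟩ := h
  refine ⟨Ω, i1, i2, i3, κ', h1, h2, fun F hF => ?_⟩
  have h4 : MvPolynomial.aeval (fun i => φ (κ i)) F = φ (MvPolynomial.aeval κ F) := by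
    rw [MvPolynomial.aeval_def, MvPolynomial.aeval_def, MvPolynomial.eval₂_comp_left]
    congr 1
    exact Subsingleton.elim _ _
  rw [h4, h3 F hF, map_zero]

/-- exceptional iterates and isomorphisms -/
theorem excIter_map (e : K ≃+* K') (p q : K[X]) (d : ℕ) (h : HasExceptionalIterate p q d) :
    HasExceptionalIterate (p.map (e : K →+* K')) (q.map (e : K →+* K')) d := by
  obtain ⟨cK, l, hl, P, R, hco, hmax, hit, κ, hκ, hcj, hex⟩ := h
  set φ : K →+* K' := (e : K →+* K') with hφ
  have hinj : Function.Injective φ := e.injective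
  have cK' : CharZero K' := charZero_of_injective_ringHom hinj
  refine ⟨cK', l, hl, P.map φ, R.map φ, hco.map (Polynomial.mapRingHom φ), ?_, ?_,
    fun i => φ (κ i), ?_, ?_, exceptional_map φ _ κ hex⟩
  · rw [natDegree_map_eq_of_injective hinj, natDegree_map_eq_of_injective hinj]
    exact hmax
  · intro z
    obtain ⟨y, rfl⟩ : ∃ y : Option K, y.map φ = z := by
      cases z with
      | none => exact ⟨none, rfl⟩
      | some x => exact ⟨some (e.symm x), by simp [hφ]⟩
    rw [mapP1_map, mapP1_iter, hit]
  · rw [← num_map, ← den_map]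
    exact hκ.map (Polynomial.mapRingHom φ)
  · have h1 := Pool.Agent.X263.AL.conj_map φ hcj
    rw [num_map, den_map] at h1
    exact h1

/-- exceptional iterates over an algebraic closure -/
theorem exc_up {E : Type u} {A : Type w} [Field E] [Field A] [Algebra E A] [IsAlgClosure E A]
    (p q : E[X]) (d : ℕ)
    (h : HasExceptionalIterate (p.map (algebraMap E (AlgebraicClosure E)))
      (q.map (algebraMap E (AlgebraicClosure E))) d) :
    HasExceptionalIterate (p.map (algebraMap E A)) (q.map (algebraMap E A)) d := by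
  let j : AlgebraicClosure E ≃ₐ[E] A := IsAlgClosure.equiv E (AlgebraicClosure E) A
  have h1 := excIter_map j.toRingEquiv _ _ d h
  have h2 : ∀ g : E[X], (g.map (algebraMap E (AlgebraicClosure E))).map
      ((j.toRingEquiv : AlgebraicClosure E ≃+* A) : AlgebraicClosure E →+* A) =
      g.map (algebraMap E A) := by
    intro g
    rw [Polynomial.map_map]
    congr 1
    exact (j : AlgebraicClosure E →ₐ[E] A).comp_algebraMap
  rw [h2, h2] at h1
  exact h1

end

end Pool.Agent.X328.GN
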