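import Mathlib
import Pool.Agent.X328.GN.ExcUp

/-! # Exceptional maps and isomorphisms of fields -/

set_option autoImplicit false

namespace Pool.Agent.X328.GN

open Polynomial Pool.Agent.W277.UH
open Pool.Agent.Results.MP_9b502d_nt.LargeCriticalHeight (Conjugate mapP1)
open Pool.Agent.Results.MP_9b502d_nt.AllMapsCharZero (Ix num den IsExceptional IsExceptionalMap
  HasThreeFixedPoints)

universe u v w

section

variable {K : Type u} {K' : Type v} [Field K] [Field K']

theorem three_map (e : K ≃+* K') (p q : K[X]) (d m : ℕ)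
    (h : HasThreeFixedPoints (p.map (e : K →+* K')) (q.map (e : K →+* K')) d m) :
    HasThreeFixedPoints p q d m := by
  obtain ⟨z, hz, hz2⟩ := h
  have h1 : ∀ i, ∃ y : Option K, y.map (e : K →+* K') = z i := by
    intro i
    cases z i with
    | none => exact ⟨none, rfl⟩
    | some x => exact ⟨some (e.symm x), by simp⟩
  choose y hy using h1
  refine ⟨y, ?_, ?_⟩
  · intro a b hab
    apply hz
    rw [← hy a, ← hy b, hab]
  · intro i
    apply Option.map_injective (e : K →+* K').injective
    rw [← mapP1_iter, hy i]
    exact hz2 i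

/-- exceptional maps and isomorphisms -/
theorem excMap_map (e : K ≃+* K') (p q : K[X]) (d : ℕ) (h : IsExceptionalMap p q d) :
    IsExceptionalMap (p.map (e : K →+* K')) (q.map (e : K →+* K')) d := by
  obtain ⟨cK, l, hl, hleast, P, R, hco, hmax, hit, κ, hκ, hcj, hex⟩ := h
  have hleast' : ∀ m : ℕ, 1 ≤ m → m < l →
      ¬ HasThreeFixedPoints (p.map (e : K →+* K')) (q.map (e : K →+* K')) d m :=
    fun m h1 h2 h3 => hleast m h1 h2 (three_map e p q d m h3)
  set φ : K →+* K' := (e : K →+* K') with hφ
  have hinj : Function.Injective φ := e.injective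
  have cK' : CharZero K' := charZero_of_injective_ringHom hinj
  refine ⟨cK', l, hl, hleast', P.map φ, R.map φ, hco.map (Polynomial.mapRingHom φ), ?_, ?_,
    fun i => φ (κ i), ?_, ?_, exceptional_map φ _ κ hex⟩
  · rw [natDegree_map_eq_of_injective hinj, natDegree_map_eq_of_injective hinj]
    exact hmax
  · intro z
    obtain ⟨y, rfl⟩ : ∃ y : Option K, y.map φ = z := by
      cases z with
      | none => exact ⟨none, rfl⟩
      | some x => exact ⟨some (e.symm x), by simp [hφ]⟩
    rw [mapP1_map, mapP1_iter, hit]
  · rw [← num_map, ← den_map]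
    exact hκ.map (Polynomial.mapRingHom φ)
  · have h1 := Pool.Agent.X263.AL.conj_map φ hcj
    rw [num_map, den_map] at h1
    exact h1

/-- exceptional maps over an algebraic closure -/
theorem excMap_up {E : Type u} {A : Type w} [Field E] [Field A] [Algebra E A] [IsAlgClosure E A]
    (p q : E[X]) (d : ℕ)
    (h : IsExceptionalMap (p.map (algebraMap E (AlgebraicClosure E)))
      (q.map (algebraMap E (AlgebraicClosure E))) d) :
    IsExceptionalMap (p.map (algebraMap E A)) (q.map (algebraMap E A)) d := by
  let j : AlgebraicClosure E ≃ₐ[E] A := IsAlgClosure.equiv E (AlgebraicClosure E) A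
  have h1 := excMap_map j.toRingEquiv _ _ d h
  have h2 : ∀ g : E[X], (g.map (algebraMap E (AlgebraicClosure E))).map
      ((j.toRingEquiv : AlgebraicClosure E ≃+* A) : AlgebraicClosure E →+* A) =
      g.map (algebraMap E A) := by
    intro g
    rw [Polynomial.map_map]
    congr 1
    exact (j : AlgebraicClosure E →ₐ[E] A).comp_algebraMap
  rw [h2, h2] at h1
  exact h1

end

end Pool.Agent.X328.GN
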