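import Pool.Agent.X328.GN.Stm
import Pool.Agent.Results.MP_9b502d_nt.LargeCriticalHeight

/-!
# Project GN: the normal form with three fixed points at `0`, `1`, `∞`, and elimination of the
fixed points (upgrade: a condition on the coefficients of `p`, `q` only)
-/

set_option autoImplicit false

namespace Pool.Agent.X328.GN

open Finset Polynomial
open Pool.Agent.Results.MP_9b502d_nt.LargeCriticalHeight (Conjugate)

universe u v w

noncomputable section

/-- numerator of the conjugate by `φ (X) = μ (X - x) / (X - z)`, `μ = (y - z) / (y - x)`, which moves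
`x`, `y`, `z` to `0`, `1`, `∞` -/
def u0 {K : Type*} [Field K] (d : ℕ) (p q : K[X]) (x y z : K) : K[X] :=
  C ((y - z) / (y - x)) *
    (hm d p (C z * X - C ((y - z) / (y - x) * x)) (X - C ((y - z) / (y - x))) -
      C x * hm d q (C z * X - C ((y - z) / (y - x) * x)) (X - C ((y - z) / (y - x))))

/-- the denominator -/
def w0 {K : Type*} [Field K] (d : ℕ) (p q : K[X]) (x y z : K) : K[X] :=
  hm d p (C z * X - C ((y - z) / (y - x) * x)) (X - C ((y - z) / (y - x))) -
    C z * hm d q (C z * X - C ((y - z) / (y - x) * x)) (X - C ((y - z) / (y - x)))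

/-- the parameters of the normal form of `p / q` for the three fixed points `x`, `y`, `z` -/
def kap {K : Type*} [Field K] (d : ℕ) (p q : K[X]) (x y z : K) : Ix d → K
  | Sum.inl i => (u0 d p q x y z).coeff (i.1 + 1) / ((y - z) / (y - x) * (z - x) * q.eval z)
  | Sum.inr i => (w0 d p q x y z).coeff (i.1 + 1) / ((y - z) / (y - x) * (z - x) * q.eval z)

/-- **NORM**: the normal form. With `μ = (y - z) / (y - x)`, `ℓ = μ (z - x) q(z) ≠ 0`:
`nu d κ = u0 / ℓ`, `de d κ = w0 / ℓ` (leading coefficient of `hm d F ..` in degree `d` is `F(z)`, value at `0`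
is `(-μ)^d F(x)`, value at `1` is `(1-μ)^d F(y)`), and
`hm d (hm d F (z X - μ x) (X - μ)) (μ (X - x)) (X - z) = (μ (z - x)) ^ d F`, so `Conjugate` holds with
`a = μ`, `b = -μ x`, `c = 1`, `e = -z`, `s = (μ (z - x)) ^ d / ℓ`. -/
def S_NORM : Prop := ∀ (K : Type u) [Field K] [CharZero K] (d : ℕ), 2 ≤ d → ∀ p q : K[X],
  IsCoprime p q → max p.natDegree q.natDegree = d → ∀ x y z : K, x ≠ y → y ≠ z → x ≠ z →
  p.eval x = x * q.eval x → p.eval y = y * q.eval y → p.eval z = z * q.eval z →
  IsCoprime (nu d (kap d p q x y z)) (de d (kap d p q x y z)) ∧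
    Conjugate p q (nu d (kap d p q x y z)) (de d (kap d p q x y z)) d

/-- the polynomial with coefficients given by `c` -/
def ofc {K : Type*} [Field K] (d : ℕ) (c : Fin (d + 1) → K) : K[X] := ∑ i, C (c i) * X ^ i.1

/-- **DEL**: elimination of the fixed points. Proof: `D (kap ..)` times a power of
`δ = (y - x) (y - z) (z - x) q(z)` and times `δ` is a polynomial `E (a, b, x, y, z)` with integer coefficients.
Let `F = X q - p`, of degree `d + 1` if `b_d ≠ 0`. The iterated resultant
`Res_x (F (x), Res_y (F (y), Res_z (F (z), W - E)))` is `N (a, b, W) = b_d ^ m ∏ (W - E (x, y, z))` over all triples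
of roots of `F`. For the maps conjugate to the generic normal form (by a Moebius map with
constant coefficients which makes the fixed points `0`, `1`, `∞` finite) one triple has `D (kap) = D (t) ≠ 0`,
so `N` is not `b_d ^ m W ^ r`, and a coefficient `N_j (a, b)`, `j < r`, is not zero in `ℤ[a, b]`.
`Δ = b_d N_j`. -/
def S_DEL : Prop := ∀ (d : ℕ), 2 ≤ d → ∀ D : MvPolynomial (Ix d) ℤ, D ≠ 0 →
  ∃ Δ : MvPolynomial (Fin (d + 1) ⊕ Fin (d + 1)) ℤ, Δ ≠ 0 ∧
  ∀ (K : Type u) [Field K] [IsAlgClosed K] [CharZero K] (a b : Fin (d + 1) → K),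
    IsCoprime (ofc d a) (ofc d b) → MvPolynomial.aeval (Sum.elim a b) Δ ≠ 0 →
    ∃ x y z : K, x ≠ y ∧ y ≠ z ∧ x ≠ z ∧ (ofc d a).eval x = x * (ofc d b).eval x ∧
      (ofc d a).eval y = y * (ofc d b).eval y ∧ (ofc d a).eval z = z * (ofc d b).eval z ∧
      MvPolynomial.aeval (kap d (ofc d a) (ofc d b) x y z) D ≠ 0

end

end Pool.Agent.X328.GN
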