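import Mathlib
import Pool.Agent.X328.GN.Fin3
import Pool.Agent.X328.GN.Stm3

/-! # Maps near `X ^ d`: the final theorem -/

set_option autoImplicit false

namespace Pool.Agent.X328.GN

open Finset Polynomial Pool.Agent.W277.UH
open Pool.Agent.X328.FP (hQ hQ_nonneg hQ_pos)
open Pool.Agent.X328.GM (le_mapHeight)
open Pool.Agent.Results.MP_9b502d_nt.LargeCriticalHeight (Conjugate mapHeight height mapP1 transfer)
open Pool.Agent.Results.MP_9b502d_nt.LargeMultiplier (HasLargeMultiplier)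

universe u v w

theorem gen3 (hIT : S_IT.{u}) (hCHI0 : S_CHI.{0, u}) (hCHI : S_CHI.{u, u}) (hSPEC : S_SPEC2.{u})
    (hHT1 : S_HT1.{u, u, u}) (hHT2 : S_HT2.{u, u, u}) (hHT3 : S_HT3.{u, u, u}) (d : ℕ)
    (hd : 2 ≤ d) :
    ∃ D : MvPolynomial (Ix d) ℤ, MvPolynomial.aeval (fun _ => (0 : ℤ)) D ≠ 0 ∧ ∀ n B : ℕ, ∃ N : ℕ, ∀ (k : Type v) (L : Type u) [Field k]
    [CharZero k] [Field L] [Algebra k L] (t : L), Transcendental k t →
    FiniteDimensional (IntermediateField.adjoin k {t}) L →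
    Module.finrank (IntermediateField.adjoin k {t}) L ≤ n → ∀ p q : L[X], IsCoprime p q →
    max p.natDegree q.natDegree = d →
    ∀ (M : Type u) [Field M] [Algebra k M] [Algebra L M] [IsScalarTower k L M]
    [FiniteDimensional L M], Module.finrank L M ≤ B → ∀ κ : Ix d → M,
    IsCoprime (nu d κ) (de d κ) →
    Conjugate (p.map (algebraMap L M)) (q.map (algebraMap L M)) (nu d κ) (de d κ) d →
    MvPolynomial.aeval κ D ≠ 0 → (∃ i, Transcendental k (κ i)) →
    {z : Option L | (Set.range fun m : ℕ => (mapP1 p q d)^[m] z).Finite}.encard ≤ (N : ℕ∞) := by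
  classical
  obtain ⟨r₀, hr₀⟩ : ∃ r : ℕ, r = d ^ 3 := ⟨_, rfl⟩
  obtain ⟨D₀, FS, hD₀, hrel⟩ := hSPEC d hd
  obtain ⟨m₀, D, hm₀, hDD⟩ := int_poly D₀
  refine ⟨D, ?_, fun n B => ?_⟩
  · intro h
    have h1 := aeval_int D₀ D m₀ hDD (fun _ => (0 : ℚ))
    have h2 : MvPolynomial.aeval (fun _ : Ix d => (0 : ℚ)) D =
        ((MvPolynomial.aeval (fun _ : Ix d => (0 : ℤ)) D : ℤ) : ℚ) := by
      have h3 : MvPolynomial.aeval (fun _ : Ix d => algebraMap ℤ ℚ 0) D = algebraMap ℤ ℚ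
          (MvPolynomial.aeval (fun _ : Ix d => (0 : ℤ)) D) :=
        MvPolynomial.aeval_algebraMap_apply (R := ℤ) ℚ (fun _ : Ix d => (0 : ℤ)) D
      rw [map_zero] at h3
      exact h3
    rw [h2, h, Int.cast_zero] at h1
    exact (mul_ne_zero (by exact_mod_cast hm₀) hD₀) h1.symm
  obtain ⟨A₁, hA₁⟩ := ineq_Ph.{u, u, u} (fun A A' _ _ φ d t => (hCHI0.1 A A' φ d t).2.2.1) hHT1
    hHT2 d
  obtain ⟨A₂, hA₂⟩ := ineq_tP.{u, u, u} (fun A A' _ _ φ d t => ⟨(hCHI0.1 A A' φ d t).1,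
    (hCHI0.1 A A' φ d t).2.1⟩) hHT1 d
  have hKK := fun s : ℕ × (Ix d → ℕ → MvPolynomial (Fin (d ^ 3 + 1)) ℚ) =>
    ineq_ka.{u, u, u} hCHI.2 hHT1 hHT2 hHT3 d hd s.1 s.2
  choose AA hAA using hKK
  set A₃ := FS.sup AA with hA3def
  set n₁ := n * B * (r₀ + 1) ^ r₀ with hn₁
  obtain ⟨C₀, hC₀⟩ := pdk.{u, v} n₁
  set B₁ := C₀ * (A₂ * ((A₁ + 1) * (A₃ * (d ^ 3 * C₀)))) with hB₁
  set B' := max (max B₁ ((r₀ + 1) ^ r₀)) 3 with hB'
  obtain ⟨N₀, hN₀⟩ := Pool.Agent.Results.MP_9b502d_nt.LargeMultiplier.result.{u, v}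
  refine ⟨N₀ (n * B) d B', ?_⟩
  intro k L _ _ _ _ t ht hfd hn p q hco hmax M _ _ _ _ _ hfr κ hcop hcj hDκ htr
  have cM : CharZero M := charZero_of_injective_algebraMap (algebraMap k M).injective
  -- the variable in `M`
  have htM : Transcendental k (algebraMap L M t) := by
    intro h
    exact ht ((isAlgebraic_algebraMap_iff (algebraMap L M).injective).mp h)
  have hteM : Module.finrank (IntermediateField.adjoin k {algebraMap L M t}) M =
      Module.finrank (IntermediateField.adjoin k {t}) L * Module.finrank L M :=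
    Pool.Agent.Y555.CH.t_HTE k L M t
  have htfM : FiniteDimensional (IntermediateField.adjoin k {algebraMap L M t}) M := by
    apply FiniteDimensional.of_finrank_pos
    rw [hteM]
    exact Nat.mul_pos Module.finrank_pos Module.finrank_pos
  have hleM : Module.finrank (IntermediateField.adjoin k {algebraMap L M t}) M ≤ n * B := by
    rw [hteM]
    exact Nat.mul_le_mul hn hfr
  set tM := algebraMap L M t with htMdef
  -- the polynomials
  have hD₀κ : MvPolynomial.aeval κ D₀ ≠ 0 := by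
    intro h
    apply hDκ
    rw [aeval_int D₀ D m₀ hDD, h, mul_zero]
  obtain ⟨-, hPhc, -⟩ := hrel M κ hD₀κ
  have hnumon : ∀ {K : Type u} [Field K] (κ : Ix d → K),
      (nu d κ).Monic ∧ (nu d κ).natDegree = d ∧ (de d κ).natDegree < d := by
    intro K _ κ
    have h1 : (∑ i : Fin (d - 1), C (κ (Sum.inl i)) * X ^ (i.1 + 1) : K[X]).degree < d := by
      refine (degree_sum_le _ _).trans_lt ?_
      rw [Finset.sup_lt_iff (by exact_mod_cast WithBot.bot_lt_coe d)]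
      intro i _
      refine (degree_C_mul_X_pow_le _ _).trans_lt ?_
      exact_mod_cast (by have := i.2; omega : i.1 + 1 < d)
    have h2 : (∑ i : Fin (d - 1), C (κ (Sum.inr i)) * X ^ (i.1 + 1) : K[X]).natDegree < d := by
      refine lt_of_le_of_lt (natDegree_sum_le_of_forall_le _ _ (n := d - 1) fun i _ => ?_)
        (by omega)
      refine (natDegree_C_mul_X_pow_le _ _).trans ?_
      have := i.2
      omega
    refine ⟨?_, ?_, ?_⟩
    · exact monic_X_pow_add h1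
    · unfold nu
      rw [natDegree_add_eq_left_of_degree_lt (by rw [degree_X_pow]; exact h1), natDegree_X_pow]
    · unfold de
      refine lt_of_le_of_lt (natDegree_add_le _ _) (max_lt ?_ h2)
      rw [natDegree_C]
      omega
  obtain ⟨hmon, hnud, hded⟩ := hnumon κ
  have hmaxκ : max (nu d κ).natDegree (de d κ).natDegree = d := by
    rw [hnud]
    exact max_eq_left hded.le
  have hPhdeg : ∀ {K : Type u} [Field K] (κ : Ix d → K), IsCoprime (nu d κ) (de d κ) →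
      (Ph d κ).natDegree ≤ d ^ 3 := by
    intro K _ κ hcop
    obtain ⟨h1, h2, h3⟩ := hnumon κ
    obtain ⟨-, -, h4, h5, -⟩ := hIT K d hd _ _ hcop h1 h2 h3 3
    unfold Ph
    refine (natDegree_sub_le _ _).trans (max_le h4.le ?_)
    refine natDegree_mul_le.trans ?_
    rw [natDegree_X]
    have : (Q3 d κ).natDegree < d ^ 3 := h5
    omega
  have hPhne : Ph d κ ≠ 0 := by
    intro h
    rw [h, coeff_zero] at hPhc
    exact hPhc rfl
  -- the extension
  obtain ⟨M₁, i1, i2, i3, t1, f1, hdeg1, hsp1⟩ := ext_split1 k M (Ph d κ) r₀ hPhne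
    (hr₀ ▸ hPhdeg κ hcop)
  have cM₁ : CharZero M₁ := charZero_of_injective_algebraMap (algebraMap k M₁).injective
  set j := algebraMap M M₁ with hj
  have hinj : Function.Injective j := j.injective
  set κ₁ : Ix d → M₁ := fun i => j (κ i) with hκ₁
  obtain ⟨eP, eQ, ePh, -⟩ := hCHI.1 M M₁ j d κ
  have hnu : (nu d κ).map j = nu d κ₁ := map_nu j d κ
  have hde : (de d κ).map j = de d κ₁ := map_de j d κ
  have hcop₁ : IsCoprime (nu d κ₁) (de d κ₁) := by
    rw [← hnu, ← hde]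
    exact (Polynomial.isCoprime_map j).mpr hcop
  have hDκ₁ : MvPolynomial.aeval κ₁ D₀ ≠ 0 := by
    have h1 : MvPolynomial.aeval κ₁ D₀ = j (MvPolynomial.aeval κ D₀) := by
      have h2 := MvPolynomial.aeval_algebraMap_apply (R := ℚ) M₁ κ D₀
      exact h2
    rw [h1]
    exact (_root_.map_ne_zero j).2 hD₀κ
  obtain ⟨-, hPhc₁, hrel₁⟩ := hrel M₁ κ₁ hDκ₁
  have hPhd₁ : (Ph d κ₁).natDegree = d ^ 3 :=
    le_antisymm (hPhdeg κ₁ hcop₁) (le_natDegree_of_ne_zero hPhc₁)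
  have hsp₁ : (Ph d κ₁).Splits := by
    rw [← ePh]
    exact hsp1
  have hPhne₁ : Ph d κ₁ ≠ 0 := by
    intro h
    rw [h, coeff_zero] at hPhc₁
    exact hPhc₁ rfl
  have hd3 : 1 ≤ d ^ 3 := Nat.one_le_pow _ _ (by omega)
  -- the variable in `M₁`
  have ht₁ : Transcendental k (j tM) := by
    intro h
    exact htM ((isAlgebraic_algebraMap_iff hinj).mp h)
  have hte₁ : Module.finrank (IntermediateField.adjoin k {j tM}) M₁ =
      Module.finrank (IntermediateField.adjoin k {tM}) M * Module.finrank M M₁ :=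
    Pool.Agent.Y555.CH.t_HTE k M M₁ tM
  have htf₁ : FiniteDimensional (IntermediateField.adjoin k {j tM}) M₁ := by
    apply FiniteDimensional.of_finrank_pos
    rw [hte₁]
    exact Nat.mul_pos Module.finrank_pos Module.finrank_pos
  have hle₁ : Module.finrank (IntermediateField.adjoin k {j tM}) M₁ ≤ n₁ := by
    rw [hte₁]
    exact Nat.mul_le_mul hleM hdeg1
  obtain ⟨Q, hh⟩ := hC₀ k M₁ (j tM) ht₁ htf₁ hle₁
  have hhgt : ∀ y : M₁, height k (some y) = Pool.Agent.Y706.CH.hgt k (some y) := fun y => rfl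
  have ck : CharZero (algebraicClosure k M₁) :=
    charZero_of_injective_algebraMap (algebraMap k (algebraicClosure k M₁)).injective
  -- the multiplier of largest height
  obtain ⟨x₀, hx₀, hx₀max⟩ := Finset.exists_max_image (Ph d κ₁).roots.toFinset
    (fun x => height k (some (ml d κ₁ x))) (by
      rw [Multiset.toFinset_nonempty]
      intro h
      have h1 := hsp₁.natDegree_eq_card_roots
      rw [h, Multiset.card_zero, hPhd₁] at h1
      omega)
  have hx₀r : (Ph d κ₁).eval x₀ = 0 := (mem_roots hPhne₁).1 (Multiset.mem_toFinset.1 hx₀)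
  obtain ⟨hmon₁, hnud₁, hded₁⟩ := hnumon κ₁
  obtain ⟨hco3, -, hP3d, hQ3d, -, -⟩ := hIT M₁ d hd _ _ hcop₁ hmon₁ hnud₁ hded₁ 3
  have hco3' : IsCoprime (P3 d κ₁) (Q3 d κ₁) := hco3
  have hP3d' : (P3 d κ₁).natDegree = d ^ 3 := hP3d
  have hQ3d' : (Q3 d κ₁).natDegree < d ^ 3 := hQ3d
  have hfix : (P3 d κ₁).eval x₀ = x₀ * (Q3 d κ₁).eval x₀ := by
    have h1 := hx₀r
    unfold Ph at h1
    rw [eval_sub, eval_mul, eval_X] at h1
    exact sub_eq_zero.1 h1
  have hQ3x : (Q3 d κ₁).eval x₀ ≠ 0 := by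
    intro h
    obtain ⟨a, b, hab⟩ := hco3'
    have h1 := congrArg (fun P : M₁[X] => P.eval x₀) hab
    simp only [eval_add, eval_mul, eval_one, hfix, h, mul_zero, add_zero] at h1
    exact zero_ne_one h1
  set P' := tP (P3 d κ₁) (Q3 d κ₁) x₀ with hP'
  set Q' := tQ (Q3 d κ₁) x₀ with hQ'
  have hmul : P'.coeff 1 / Q'.coeff 0 = ml d κ₁ x₀ := tP_mult _ _ x₀ hfix hQ3x
  set h₀ := height k (some (ml d κ₁ x₀)) with hh₀
  -- the inequalities
  set S := ((Ph d κ₁).roots.map fun x => hQ Q (ml d κ₁ x)).sum with hS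
  have hS1 : S ≤ (d ^ 3 * C₀ : ℕ) * (h₀ : ℤ) := by
    have h1 : ∀ y ∈ (Ph d κ₁).roots.map (fun x => hQ Q (ml d κ₁ x)), y ≤ C₀ * (h₀ : ℤ) := by
      intro y hy
      rw [Multiset.mem_map] at hy
      obtain ⟨x, hx, rfl⟩ := hy
      have h2 := hx₀max x (Multiset.mem_toFinset.2 hx)
      have h3 := (hh (ml d κ₁ x)).1
      rw [← hhgt] at h3
      have h4 : (height k (some (ml d κ₁ x)) : ℤ) ≤ h₀ := by exact_mod_cast h2
      exact h3.trans (mul_le_mul_of_nonneg_left h4 (Int.natCast_nonneg _))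
    have h2 := Multiset.sum_le_card_nsmul _ _ h1
    rw [Multiset.card_map, ← hsp₁.natDegree_eq_card_roots, hPhd₁, nsmul_eq_mul] at h2
    refine h2.trans (le_of_eq ?_)
    push_cast
    ring
  have hSnn : 0 ≤ S := by
    rw [hS]
    refine Multiset.sum_nonneg fun y hy => ?_
    rw [Multiset.mem_map] at hy
    obtain ⟨x, -, rfl⟩ := hy
    exact hQ_nonneg Q _
  have hκS : ∑ i, hQ Q (κ₁ i) ≤ A₃ * S := by
    obtain ⟨s, hs, hrels⟩ := hrel₁
    refine (hAA s (algebraicClosure k M₁) M₁ Q κ₁ hcop₁ hPhd₁ hsp₁ hrels).trans ?_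
    refine mul_le_mul_of_nonneg_right ?_ hSnn
    have h9 : AA s ≤ A₃ := Finset.le_sup (f := AA) hs
    exact_mod_cast h9
  have hx₀S : hQ Q x₀ ≤ A₁ * ∑ i, hQ Q (κ₁ i) := hA₁ (algebraicClosure k M₁) M₁ Q κ₁ hPhc₁
    (hPhdeg κ₁ hcop₁) x₀ hx₀r
  have hcoefQ : ∀ y : M₁, hQ Q y ≤ A₂ * (hQ Q x₀ + ∑ i, hQ Q (κ₁ i)) →
      height k (some y) ≤ B₁ * h₀ := by
    intro y hy
    have h1 := (hh y).2
    rw [← hhgt] at h1
    have h2 : (height k (some y) : ℤ) ≤ B₁ * h₀ := by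
      have e1 : hQ Q x₀ + ∑ i, hQ Q (κ₁ i) ≤ (A₁ + 1) * (A₃ * ((d ^ 3 * C₀ : ℕ) * (h₀ : ℤ))) := by
        have e2 : ∑ i, hQ Q (κ₁ i) ≤ A₃ * ((d ^ 3 * C₀ : ℕ) * (h₀ : ℤ)) :=
          hκS.trans (mul_le_mul_of_nonneg_left hS1 (Int.natCast_nonneg _))
        have e3 : (A₁ : ℤ) * ∑ i, hQ Q (κ₁ i) ≤ A₁ * (A₃ * ((d ^ 3 * C₀ : ℕ) * (h₀ : ℤ))) :=
          mul_le_mul_of_nonneg_left e2 (Int.natCast_nonneg _)
        have e4 : ((A₁ : ℤ) + 1) * (A₃ * ((d ^ 3 * C₀ : ℕ) * (h₀ : ℤ))) =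
          A₁ * (A₃ * ((d ^ 3 * C₀ : ℕ) * (h₀ : ℤ))) + A₃ * ((d ^ 3 * C₀ : ℕ) * (h₀ : ℤ)) := by ring
        rw [e4]
        linarith
      calc (height k (some y) : ℤ) ≤ C₀ * hQ Q y := h1
        _ ≤ C₀ * (A₂ * ((A₁ + 1) * (A₃ * ((d ^ 3 * C₀ : ℕ) * (h₀ : ℤ))))) :=
            mul_le_mul_of_nonneg_left (hy.trans (mul_le_mul_of_nonneg_left e1
              (Int.natCast_nonneg _))) (Int.natCast_nonneg _)
        _ = B₁ * h₀ := by
            rw [hB₁]
            push_cast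
            ring
    exact_mod_cast h2
  have hcoefP : ∀ m ≤ d ^ 3, height k (some (P'.coeff m)) ≤ B₁ * h₀ ∧
      height k (some (Q'.coeff m)) ≤ B₁ * h₀ := by
    intro m hm
    obtain ⟨h1, h2⟩ := hA₂ (algebraicClosure k M₁) M₁ Q κ₁ x₀ m hm
    exact ⟨hcoefQ _ h1, hcoefQ _ h2⟩
  have hmapH : mapHeight k P' Q' (d ^ 3) ≤ B₁ * h₀ := by
    unfold mapHeight
    apply Finset.sup_le
    intro m hm
    obtain ⟨h1, h2⟩ := hcoefP m (Nat.lt_succ_iff.1 (Finset.mem_range.1 hm))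
    exact max_le h1 h2
  -- positivity
  have hposQ : ∀ y : M₁, Transcendental k y → 0 < hQ Q y := fun y hy =>
    hQ_pos Q y fun c hc => hy (by rw [← hc]; exact mem_algebraicClosure_iff.mp c.2)
  have hh₀pos : 0 < h₀ := by
    by_contra hcon
    have h1 : h₀ = 0 := by omega
    obtain ⟨i, hi⟩ := htr
    have h2 : Transcendental k (κ₁ i) := fun h => hi ((isAlgebraic_algebraMap_iff hinj).mp h)
    have h3 := hposQ _ h2
    have h4 : hQ Q (κ₁ i) ≤ ∑ i, hQ Q (κ₁ i) :=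
      Finset.single_le_sum (f := fun i => hQ Q (κ₁ i)) (fun i _ => hQ_nonneg Q _) (mem_univ i)
    rw [h1] at hS1
    simp only [Nat.cast_zero, mul_zero] at hS1
    have h5 : (A₃ : ℤ) * S ≤ 0 := mul_nonpos_of_nonneg_of_nonpos (Int.natCast_nonneg _) hS1
    omega
  have hmapPos : 0 < mapHeight k P' Q' (d ^ 3) := by
    have hgpos : ∀ y : M₁, Transcendental k y → 0 < height k (some y) := by
      intro y hy
      have h1 := hposQ y hy
      have h2 := (hh y).1
      by_contra hcon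
      have h3 : height k (some y) = 0 := by omega
      rw [← hhgt, h3] at h2
      simp only [Nat.cast_zero, mul_zero] at h2
      omega
    have h1 : Transcendental k (ml d κ₁ x₀) := by
      intro h
      have h2 : height k (some (ml d κ₁ x₀)) = 0 :=
        (Pool.Agent.Y195.CH.t_HTA k M₁ _ ht₁).1 _ h
      omega
    rw [← hmul] at h1
    by_contra hcon
    have h2 : ¬ Transcendental k (P'.coeff 1) := fun h =>
      hcon (lt_of_lt_of_le (hgpos _ h) (le_mapHeight k P' Q' (d ^ 3) 1 hd3).1)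
    have h3 : ¬ Transcendental k (Q'.coeff 0) := fun h =>
      hcon (lt_of_lt_of_le (hgpos _ h) (le_mapHeight k P' Q' (d ^ 3) 0 (Nat.zero_le _)).2)
    rw [Transcendental, not_not] at h2 h3
    apply h1
    rw [div_eq_mul_inv]
    exact h2.mul h3.inv
  -- large multiplier
  have hB₁le : B₁ ≤ B' := (le_max_left _ _).trans (le_max_left _ _)
  have hLM : HasLargeMultiplier k (P3 d κ) (Q3 d κ) (d ^ 3) B' := by
    refine ⟨M₁, i1, i2, i3, t1, f1, hdeg1.trans ((le_max_right _ _).trans (le_max_left _ _)), P',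
      Q', tP_coprime _ _ x₀ hco3', ?_, ?_, tP_zero _ _ x₀ hfix, ?_, hmapPos, ?_⟩
    · rw [hP', natDegree_tP _ _ _ (by rw [hP3d']; exact hQ3d'), hP3d']
    · rw [hQ', natDegree_tQ]
      exact hQ3d'
    · rw [eP, eQ]
      exact tP_conj _ _ x₀ (d ^ 3) hP3d'.le (by rw [hP3d']; exact hQ3d')
    · rw [hmul]
      exact hmapH.trans (Nat.mul_le_mul_right _ hB₁le)
  obtain ⟨hco3κ, -, hP3κ, hQ3κ, hitκ, -⟩ := hIT M d hd _ _ hcop hmon hnud hded 3
  have e : ∀ {K : Type u} [Field K] (p q : K[X]) (D : ℕ), mapP1 p q D = ratP1 p q D := by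
    intro K _ p q D
    funext z
    cases z <;> rfl
  have hbig := hN₀ k M tM htM htfM (n * B) d B' hleM hd (nu d κ) (de d κ) hcop hmaxκ 3
    (by norm_num) (le_max_right _ _) (P3 d κ) (Q3 d κ) hco3κ (by
      have h1 : (P3 d κ).natDegree = d ^ 3 := hP3κ
      have h2 : (Q3 d κ).natDegree < d ^ 3 := hQ3κ
      rw [h1]
      exact max_eq_left h2.le) (by
      intro z
      rw [e, e]
      exact hitκ z) hLM
  -- transfer
  obtain ⟨a, b, c', e', hdet, s, hs, hc1, hc2⟩ := hcj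
  have hinjL : Function.Injective (algebraMap L M) := (algebraMap L M).injective
  obtain ⟨φ, hφ, hφ2⟩ := Pool.Agent.Y676.CH.t_CNJ M d (by omega) a b c' e' hdet s hs
    (p.map (algebraMap L M)) (q.map (algebraMap L M)) (nu d κ) (de d κ) (by
      rw [natDegree_map_eq_of_injective hinjL, natDegree_map_eq_of_injective hinjL]
      exact hmax) ((Polynomial.isCoprime_map _).mpr hco) hmaxκ hcop hc1 hc2
  have h10 := transfer (ratP1 p q d) (ratP1 (nu d κ) (de d κ) d)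
    (fun z => φ (Option.map (algebraMap L M) z)) (hφ.comp (Option.map_injective hinjL)) (by
      intro z
      show φ (Option.map (algebraMap L M) (ratP1 p q d z)) = _
      rw [← Pool.Agent.Y555.CH.t_P1M, hφ2])
  rw [e] at hbig ⊢
  exact h10.trans hbig

end Pool.Agent.X328.GN
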