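import Mathlib
import Pool.Agent.X328.GN.Fin4
import Pool.Agent.X328.GN.Fin5

/-! # Maps near `X ^ d`: the condition on the coefficients -/

set_option autoImplicit false

namespace Pool.Agent.X328.GN

open Finset Polynomial Pool.Agent.W277.UH
open Pool.Agent.Results.MP_9b502d_nt.LargeCriticalHeight (Conjugate mapHeight height mapP1 transfer
  IsotrivialOver)

universe u v w

theorem gen4 (hNORM : S_NORM.{u}) (hDEL : S_DEL2.{u}) (d : ℕ) (hd : 2 ≤ d)
    (hgen : ∃ D : MvPolynomial (Ix d) ℤ, MvPolynomial.aeval (fun _ => (0 : ℤ)) D ≠ 0 ∧ ∀ n B : ℕ, ∃ N : ℕ, ∀ (k : Type v) (L : Type u)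
      [Field k] [CharZero k] [Field L] [Algebra k L] (t : L), Transcendental k t →
      FiniteDimensional (IntermediateField.adjoin k {t}) L →
      Module.finrank (IntermediateField.adjoin k {t}) L ≤ n → ∀ p q : L[X], IsCoprime p q →
      max p.natDegree q.natDegree = d →
      ∀ (M : Type u) [Field M] [Algebra k M] [Algebra L M] [IsScalarTower k L M]
      [FiniteDimensional L M], Module.finrank L M ≤ B → ∀ κ : Ix d → M,
      IsCoprime (nu d κ) (de d κ) →
      Conjugate (p.map (algebraMap L M)) (q.map (algebraMap L M)) (nu d κ) (de d κ) d →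
      MvPolynomial.aeval κ D ≠ 0 → (∃ i, Transcendental k (κ i)) →
      {z : Option L | (Set.range fun m : ℕ => (mapP1 p q d)^[m] z).Finite}.encard ≤ (N : ℕ∞)) :
    ∃ Δ : MvPolynomial (Fin (d + 1) ⊕ Fin (d + 1)) ℤ,
    MvPolynomial.aeval (Sum.elim (az d) (bz d)) Δ ≠ 0 ∧ ∀ n : ℕ, ∃ N : ℕ,
    ∀ (k : Type v) (L : Type u) [Field k] [CharZero k] [Field L] [Algebra k L] (t : L),
    Transcendental k t → FiniteDimensional (IntermediateField.adjoin k {t}) L →
    Module.finrank (IntermediateField.adjoin k {t}) L ≤ n → ∀ p q : L[X], IsCoprime p q →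
    max p.natDegree q.natDegree = d →
    MvPolynomial.aeval (Sum.elim (fun i : Fin (d + 1) => p.coeff i)
      (fun i : Fin (d + 1) => q.coeff i)) Δ ≠ 0 →
    ¬ IsotrivialOver k (p.map (algebraMap L (AlgebraicClosure L)))
      (q.map (algebraMap L (AlgebraicClosure L))) d →
    {z : Option L | (Set.range fun m : ℕ => (mapP1 p q d)^[m] z).Finite}.encard ≤ (N : ℕ∞) := by
  classical
  obtain ⟨D, hD, hN⟩ := hgen
  obtain ⟨Δ, hΔ, hΔ2⟩ := hDEL d hd D hD
  refine ⟨Δ, hΔ, fun n => ?_⟩
  obtain ⟨N, hN⟩ := hN n ((d + 1 + 1) ^ (d + 1))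
  refine ⟨N, ?_⟩
  intro k L _ _ _ _ t ht hfd hn p q hco hmax hΔpq hiso
  have cL : CharZero L := charZero_of_injective_algebraMap (algebraMap k L).injective
  have hpd : p.natDegree ≤ d := hmax ▸ le_max_left _ _
  have hqd : q.natDegree ≤ d := hmax ▸ le_max_right _ _
  set K := AlgebraicClosure L with hK
  have cK : CharZero K := charZero_of_injective_algebraMap (algebraMap L K).injective
  set ι := algebraMap L K with hι
  have hιinj : Function.Injective ι := ι.injective
  have epK : ofc d (fun i : Fin (d + 1) => ι (p.coeff i)) = p.map ι := by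
    rw [← map_ofc, ofc_coeff d p hpd]
  have eqK : ofc d (fun i : Fin (d + 1) => ι (q.coeff i)) = q.map ι := by
    rw [← map_ofc, ofc_coeff d q hqd]
  obtain ⟨x, y, z, hxy, hyz, hxz, hx, hy, hz, hDK⟩ := hΔ2 K
    (fun i : Fin (d + 1) => ι (p.coeff i)) (fun i : Fin (d + 1) => ι (q.coeff i)) (by
      rw [epK, eqK]
      exact (Polynomial.isCoprime_map ι).mpr hco) (by
      have h1 : Sum.elim (fun i : Fin (d + 1) => ι (p.coeff i)) (fun i : Fin (d + 1) =>
          ι (q.coeff i)) = fun s => ι (Sum.elim (fun i : Fin (d + 1) => p.coeff i)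
            (fun i : Fin (d + 1) => q.coeff i) s) := by
        funext s
        cases s <;> rfl
      rw [h1]
      rw [aeval_map_int ι]
      exact (_root_.map_ne_zero ι).2 hΔpq)
  rw [epK, eqK] at hx hy hz hDK
  -- the field generated by the fixed points
  set F : L[X] := X * q - p with hF
  have hF0 : F ≠ 0 := by
    intro h
    have h1 : p = X * q := by rw [hF] at h; exact (sub_eq_zero.1 h).symm
    have h2 : IsUnit q := hco.isUnit_of_dvd' ⟨X, by rw [h1, mul_comm]⟩ dvd_rfl
    have h3 := natDegree_eq_zero_of_isUnit h2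
    have h4 : p.natDegree ≤ 1 := by
      rw [h1]
      refine natDegree_mul_le.trans ?_
      rw [natDegree_X, h3]
    rw [h3] at hmax
    have : p.natDegree = d := by
      rw [← hmax]
      simp
    omega
  have hFd : F.natDegree ≤ d + 1 := by
    rw [hF]
    refine (natDegree_sub_le _ _).trans (max_le ?_ (by omega))
    refine natDegree_mul_le.trans ?_
    rw [natDegree_X]
    omega
  let M : IntermediateField L K := IntermediateField.adjoin L (F.rootSet K)
  obtain ⟨h1, h2⟩ := Pool.Agent.Y555.CH.t_DEG L K F (d + 1) hF0 hFd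
  have hfdM : FiniteDimensional L M := h1
  have hdegM : Module.finrank L M ≤ (d + 1 + 1) ^ (d + 1) := h2
  have tw : IsScalarTower k L M := inferInstance
  have hroot : ∀ x : K, (p.map ι).eval x = x * (q.map ι).eval x → x ∈ M := by
    intro x hx
    apply IntermediateField.subset_adjoin
    rw [mem_rootSet]
    refine ⟨hF0, ?_⟩
    rw [aeval_def, ← eval_map, hF, Polynomial.map_sub, Polynomial.map_mul, Polynomial.map_X,
      eval_sub, eval_mul, eval_X, hx, sub_self]
  set jM : M →+* K := algebraMap M K with hjM
  have hjMinj : Function.Injective jM := jM.injective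
  have hcomp : jM.comp (algebraMap L M) = ι := (IsScalarTower.algebraMap_eq L M K).symm
  have hmapp : ∀ f : L[X], (f.map (algebraMap L M)).map jM = f.map ι := by
    intro f
    rw [Polynomial.map_map, hcomp]
  obtain ⟨x', hx'⟩ : ∃ x' : M, jM x' = x := ⟨⟨x, hroot x hx⟩, rfl⟩
  obtain ⟨y', hy'⟩ : ∃ y' : M, jM y' = y := ⟨⟨y, hroot y hy⟩, rfl⟩
  obtain ⟨z', hz'⟩ : ∃ z' : M, jM z' = z := ⟨⟨z, hroot z hz⟩, rfl⟩
  have hfixM : ∀ x' : M, (p.map ι).eval (jM x') = jM x' * (q.map ι).eval (jM x') →
      (p.map (algebraMap L M)).eval x' = x' * (q.map (algebraMap L M)).eval x' := by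
    intro x' h
    apply hjMinj
    rw [map_mul, ← eval₂_at_apply, ← eval₂_at_apply, ← eval_map, ← eval_map, hmapp, hmapp]
    exact h
  have cM : CharZero M := charZero_of_injective_algebraMap (algebraMap L M).injective
  have hinjLM : Function.Injective (algebraMap L M) := (algebraMap L M).injective
  obtain ⟨hcopM, hcjM⟩ := hNORM M d hd (p.map (algebraMap L M)) (q.map (algebraMap L M))
    ((Polynomial.isCoprime_map _).mpr hco) (by
      rw [natDegree_map_eq_of_injective hinjLM, natDegree_map_eq_of_injective hinjLM]
      exact hmax) x' y' z' (by rintro rfl; exact hxy (hx'.symm.trans hy'))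
    (by rintro rfl; exact hyz (hy'.symm.trans hz')) (by rintro rfl; exact hxz (hx'.symm.trans hz'))
    (hfixM x' (by rw [hx']; exact hx)) (hfixM y' (by rw [hy']; exact hy))
    (hfixM z' (by rw [hz']; exact hz))
  set κ : Ix d → M := kap d (p.map (algebraMap L M)) (q.map (algebraMap L M)) x' y' z' with hκ
  have hκK : (fun i => jM (κ i)) = kap d (p.map ι) (q.map ι) x y z := by
    funext i
    rw [hκ, map_kap, hmapp, hmapp, hx', hy', hz']
  refine hN k L t ht hfd hn p q hco hmax M hdegM κ hcopM hcjM ?_ ?_
  · intro h
    apply hDK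
    rw [← hκK, aeval_map_int jM, h, map_zero]
  · by_contra hcon
    push Not at hcon
    apply hiso
    have twK : IsScalarTower k M K := by
      refine IsScalarTower.of_algebraMap_eq fun x => ?_
      rw [IsScalarTower.algebraMap_apply k L M, ← IsScalarTower.algebraMap_apply L M K,
        ← IsScalarTower.algebraMap_apply k L K]
    have halg : ∀ i, IsAlgebraic k (jM (κ i)) := by
      intro i
      have h3 := hcon i
      rw [Transcendental, not_not] at h3
      exact h3.algebraMap
    have hcjK := Pool.Agent.X328.FP.conj_map jM d _ _ _ _ hcjM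
    rw [hmapp, hmapp, map_nu, map_de] at hcjK
    have hmem : ∀ i, jM (κ i) ∈ algebraicClosure k K := fun i => mem_algebraicClosure_iff.mpr (halg i)
    set κK : Ix d → K := fun i => jM (κ i) with hκKdef
    -- the coefficients are algebraic
    set S : Subalgebra k K := (algebraicClosure k K).toSubalgebra with hS
    have hnuc : ∀ n, IsAlgebraic k ((nu d κK).coeff n) := by
      intro n
      have h3 : (nu d κK).coeff n ∈ algebraicClosure k K := by
        unfold nu
        rw [coeff_add, finsetSum_coeff, coeff_X_pow]
        refine add_mem ?_ (sum_mem fun i _ => ?_)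
        · split_ifs
          · exact one_mem _
          · exact zero_mem _
        · rw [coeff_C_mul_X_pow]
          split_ifs
          · exact hmem _
          · exact zero_mem _
      exact mem_algebraicClosure_iff.mp h3
    have hdec : ∀ n, IsAlgebraic k ((de d κK).coeff n) := by
      intro n
      have h3 : (de d κK).coeff n ∈ algebraicClosure k K := by
        unfold de
        rw [coeff_add, finsetSum_coeff, coeff_C]
        refine add_mem ?_ (sum_mem fun i _ => ?_)
        · split_ifs
          · exact sub_mem (add_mem (one_mem _) (sum_mem fun i _ => hmem _))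
              (sum_mem fun i _ => hmem _)
          · exact zero_mem _
        · rw [coeff_C_mul_X_pow]
          split_ifs
          · exact hmem _
          · exact zero_mem _
      exact mem_algebraicClosure_iff.mp h3
    refine isotrivial_of k _ _ _ _ d hcjK hnuc hdec ?_ ?_ ?_
    · unfold nu
      refine (natDegree_add_le _ _).trans (max_le (natDegree_X_pow_le _) ?_)
      refine natDegree_sum_le_of_forall_le _ _ fun i _ => ?_
      refine (natDegree_C_mul_X_pow_le _ _).trans ?_
      have := i.2
      omega
    · unfold de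
      refine (natDegree_add_le _ _).trans (max_le (by rw [natDegree_C]; omega) ?_)
      refine natDegree_sum_le_of_forall_le _ _ fun i _ => ?_
      refine (natDegree_C_mul_X_pow_le _ _).trans ?_
      have := i.2
      omega
    · left
      intro h
      have h3 : (nu d κK).coeff d = 1 := by
        unfold nu
        rw [coeff_add, finsetSum_coeff, coeff_X_pow, if_pos rfl]
        rw [Finset.sum_eq_zero, add_zero]
        intro i _
        rw [coeff_C_mul_X_pow, if_neg]
        have := i.2
        omega
      rw [h, coeff_zero] at h3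
      exact zero_ne_one h3

end Pool.Agent.X328.GN
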