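import Mathlib
import Pool.Agent.X328.GN.Stm3

/-! # A conjugate of `X ^ d` -/

set_option autoImplicit false

namespace Pool.Agent.X328.GN

open Finset Polynomial
open Pool.Agent.Results.MP_9b502d_nt.LargeCriticalHeight (Conjugate)

theorem sum_sub_pow (d : ℕ) (P Q : ℚ[X]) :
    ∑ i ∈ range (d + 1), C (((X - 1 : ℚ[X]) ^ d).coeff i) * P ^ i * Q ^ (d - i) = (P - Q) ^ d := by
  rw [sub_eq_add_neg P Q, add_pow]
  refine Finset.sum_congr rfl fun i hi => ?_
  rw [show (X - 1 : ℚ[X]) = X + C (-1) by simp [sub_eq_add_neg], coeff_X_add_C_pow, neg_pow Q (d - i)]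
  simp only [map_mul, map_pow, map_neg, map_one, map_natCast]
  ring

theorem sum_X_pow (d : ℕ) (P Q : ℚ[X]) :
    ∑ i ∈ range (d + 1), C ((X ^ d : ℚ[X]).coeff i) * P ^ i * Q ^ (d - i) = P ^ d := by
  rw [Finset.sum_eq_single d]
  · simp
  · intro i _ hid
    rw [coeff_X_pow, if_neg hid, C_0, zero_mul, zero_mul]
  · intro h
    exact absurd (Finset.mem_range.2 (Nat.lt_succ_self d)) h

theorem conj_az (d : ℕ) : Conjugate (X ^ d : ℚ[X]) 1 (C (2 ^ d) * X ^ d)
    (C (2 ^ d) * X ^ d - C 2 * (X - 1) ^ d) d := by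
  refine ⟨1, 0, 1, -2, by norm_num, 2 ^ d, by positivity, ?_, ?_⟩
  · have h := sum_X_pow d (C 1 * X + C 0) (C 1 * X + C (-2))
    have h2 : ∑ i ∈ range (d + 1), C ((C (2 ^ d) * X ^ d : ℚ[X]).coeff i) * (C 1 * X + C 0) ^ i *
        (C 1 * X + C (-2)) ^ (d - i) = C (2 ^ d) * (C 1 * X + C 0) ^ d := by
      rw [← h, Finset.mul_sum]
      refine Finset.sum_congr rfl fun i _ => ?_
      rw [coeff_C_mul, C_mul]
      ring
    rw [h2]
    simp
  · have h := sum_X_pow d (C 1 * X + C 0) (C 1 * X + C (-2))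
    have h' := sum_sub_pow d (C 1 * X + C 0) (C 1 * X + C (-2))
    have h2 : ∑ i ∈ range (d + 1), C ((C (2 ^ d) * X ^ d - C 2 * (X - 1) ^ d : ℚ[X]).coeff i) *
        (C 1 * X + C 0) ^ i * (C 1 * X + C (-2)) ^ (d - i) =
        C (2 ^ d) * (C 1 * X + C 0) ^ d -
          C 2 * ((C 1 * X + C 0) - (C 1 * X + C (-2))) ^ d := by
      rw [← h, ← h', Finset.mul_sum, Finset.mul_sum, ← Finset.sum_sub_distrib]
      refine Finset.sum_congr rfl fun i _ => ?_
      rw [coeff_sub, coeff_C_mul, coeff_C_mul, C_sub, C_mul, C_mul]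
      ring
    rw [h2]
    have h3 : (C 1 * X + C 0 : ℚ[X]) - (C 1 * X + C (-2)) = C 2 := by
      simp
    rw [h3]
    simp only [map_one, one_mul, map_zero, add_zero, mul_one, map_neg, map_pow]
    ring

end Pool.Agent.X328.GN
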